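import Pool.Agent.V8Lead.OR.Stm3

set_option autoImplicit false

/-!
Project OR (helper86): the window counts of two different systems of translates differ.
-/

namespace Pool.Agent.V8H86.OR

open Filter Topology MeasureTheory
open Pool.Agent.V8Lead.OR
open SG (NZ ord)

noncomputable section

lemma exists_perm {k : ℕ} {a b : Fin k → ℝ}
    (h : ∀ v : ℝ, (Finset.univ.filter fun j => a j = v).card = (Finset.univ.filter fun j => b j = v).card) :
    ∃ π : Equiv.Perm (Fin k), a = b ∘ π := by
  classical
  have e : ∀ v : ℝ, Nonempty ({j // a j = v} ≃ {j // b j = v}) := by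
    intro v
    refine ⟨Fintype.equivOfCardEq ?_⟩
    rw [Fintype.card_subtype, Fintype.card_subtype]
    exact h v
  let e' : ∀ v : ℝ, {j // a j = v} ≃ {j // b j = v} := fun v => (e v).some
  refine ⟨(Equiv.sigmaFiberEquiv a).symm.trans ((Equiv.sigmaCongrRight e').trans (Equiv.sigmaFiberEquiv b)), ?_⟩
  funext j
  show a j = b (e' (a j) ⟨j, rfl⟩ : Fin k)
  exact ((e' (a j) ⟨j, rfl⟩).2).symm

theorem t_AB : S_WM → S_AB := by
  classical
  intro hWM k a b hab Y ε hY hε
  set S : Finset ℝ := Finset.univ.image a ∪ Finset.univ.image b with hS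
  set e : Fin S.card ≃ S := S.equivFin.symm with he
  set bb : Fin S.card → ℝ := fun i =>
    ((Finset.univ.filter fun j => a j = (e i : ℝ)).card : ℝ) -
      ((Finset.univ.filter fun j => b j = (e i : ℝ)).card : ℝ) with hbb
  set cc : Fin S.card → ℝ := fun i => -(e i : ℝ) with hcc
  have hinj : Function.Injective cc := by
    intro i j hij
    have h1 : (e i : ℝ) = e j := neg_injective hij
    exact e.injective (Subtype.ext h1)
  have hne : bb ≠ 0 := by
    intro h0
    obtain ⟨π, hπ⟩ := exists_perm (a := a) (b := b) (by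
      intro v
      by_cases hv : v ∈ S
      · have h1 := congrFun h0 (e.symm ⟨v, hv⟩)
        simp only [hbb, Equiv.apply_symm_apply, Pi.zero_apply] at h1
        have h2 := sub_eq_zero.1 h1
        exact_mod_cast h2
      · have h1 : ∀ j, a j ≠ v := fun j hj => hv (by
          rw [hS]; exact Finset.mem_union_left _ (Finset.mem_image.2 ⟨j, Finset.mem_univ _, hj⟩))
        have h2 : ∀ j, b j ≠ v := fun j hj => hv (by
          rw [hS]; exact Finset.mem_union_right _ (Finset.mem_image.2 ⟨j, Finset.mem_univ _, hj⟩))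
        rw [Finset.filter_false_of_mem (fun j _ => h1 j), Finset.filter_false_of_mem (fun j _ => h2 j)])
    exact hab π hπ
  have hsum : ∀ (f : Fin k → ℝ) (hf : ∀ j, f j ∈ S) (G : ℝ → ℝ),
      ∑ j, G (f j) = ∑ i, ((Finset.univ.filter fun j => f j = (e i : ℝ)).card : ℝ) * G (e i) := by
    intro f hf G
    have h1 : ∑ i, ((Finset.univ.filter fun j => f j = (e i : ℝ)).card : ℝ) * G (e i) =
        ∑ v : S, ((Finset.univ.filter fun j => f j = (v : ℝ)).card : ℝ) * G v :=
      Equiv.sum_comp e (fun v : S => ((Finset.univ.filter fun j => f j = (v : ℝ)).card : ℝ) * G v)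
    rw [h1]
    have h2 : ∑ v : S, ((Finset.univ.filter fun j => f j = (v : ℝ)).card : ℝ) * G v =
        ∑ v ∈ S, ((Finset.univ.filter fun j => f j = v).card : ℝ) * G v :=
      Finset.sum_coe_sort S (fun v => ((Finset.univ.filter fun j => f j = v).card : ℝ) * G v)
    rw [h2, ← Finset.sum_fiberwise_of_maps_to (s := Finset.univ) (t := S) (g := f) (fun j _ => hf j)]
    refine Finset.sum_congr rfl fun v _ => ?_
    rw [Finset.sum_congr rfl (g := fun _ => G v) (fun j hj => by rw [(Finset.mem_filter.1 hj).2]),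
      Finset.sum_const, nsmul_eq_mul]
  have ha : ∀ j, a j ∈ S := fun j => by
    rw [hS]; exact Finset.mem_union_left _ (Finset.mem_image.2 ⟨j, Finset.mem_univ _, rfl⟩)
  have hb : ∀ j, b j ∈ S := fun j => by
    rw [hS]; exact Finset.mem_union_right _ (Finset.mem_image.2 ⟨j, Finset.mem_univ _, rfl⟩)
  obtain ⟨s0, hs0, hmain⟩ := hWM S.card bb cc hinj hne Y ε hY hε
  refine ⟨s0, hs0, fun s hs => ?_⟩
  filter_upwards [hmain s hs] with T hT
  have key : ∀ t : ℝ, ∑ i, Wc T s (t - a i) - ∑ i, Wc T s (t - b i) =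
      ∑ i, bb i * (Wc T s (t + cc i) - s) := by
    intro t
    have h1 := hsum a ha (fun v => Wc T s (t - v) - s)
    have h2 := hsum b hb (fun v => Wc T s (t - v) - s)
    have h3 : ∑ i, Wc T s (t - a i) - ∑ i, Wc T s (t - b i) =
        ∑ i, (Wc T s (t - a i) - s) - ∑ i, (Wc T s (t - b i) - s) := by
      simp only [Finset.sum_sub_distrib]
      ring
    rw [h3, h1, h2, ← Finset.sum_sub_distrib]
    refine Finset.sum_congr rfl fun i _ => ?_
    simp only [hbb, hcc]
    rw [← sub_eq_add_neg]
    ring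
  simp_rw [key]
  exact hT

end

end Pool.Agent.V8H86.OR
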