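import Pool.Agent.V8H86.OR.AcqB
import Pool.Agent.V8Lead.OR.Stm2

set_option autoImplicit false

/-!
Project OR (helper86): linear combinations of the prime sums at fixed shifts are rarely small.
-/

namespace Pool.Agent.V8H86.OR

open Filter Topology MeasureTheory Complex
open Pool.Agent.Y745.SW
open Pool.Agent.V8Lead.OR
open Pool.Agent.Y248.SW (Ker BN)
open Pool.Agent.R320.JL (PP nz cf)
open Pool.Agent.Y743.CL (VS Pr mem_Pr)

noncomputable section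

lemma VS_eqC (z : ℕ → ℂ) (X : ℕ) : VS (nz z) X = ∑ p ∈ Prm X, ‖z p‖ ^ 2 := by
  unfold VS nz
  rw [Pr_eq]

/-- a complex prime polynomial with large variance has rarely a small real part -/
lemma antiC (ε Mc : ℝ) (hε : 0 < ε) (hMc : 0 ≤ Mc) : ∃ (m : ℕ) (D S : ℝ), 0 < S ∧
    ∀ (z : ℕ → ℂ) (X : ℕ) (T A B Y : ℝ), (∀ p, ‖z p‖ ^ 2 ≤ Mc) → 1 ≤ X → D ≤ T → 0 ≤ Y →
    ((X ^ m : ℕ) : ℝ) ≤ Real.sqrt T → A ≤ B → B - A ≤ T →
    S ≤ Real.sqrt (∑ p ∈ Prm X, ‖z p‖ ^ 2) → Y * S ≤ Real.sqrt (∑ p ∈ Prm X, ‖z p‖ ^ 2) →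
    volume.real {t : ℝ | A ≤ t ∧ t ≤ B ∧ |(PP z X t).re| ≤ Y} ≤ ε * T := by
  set e : ℝ := ε / 12 with he
  have he0 : 0 < e := by positivity
  obtain ⟨J, hJ⟩ := exists_nat_gt (1 / e)
  have hJ0 : (0 : ℝ) < J := lt_trans (by positivity) hJ
  have hJ1 : 1 ≤ J := by
    have : 0 < J := by exact_mod_cast hJ0
    exact this
  -- `σ`
  obtain ⟨σ, hσ0, hσ⟩ : ∃ σ : ℝ, 0 < σ ∧ Real.exp (-(σ ^ 2 / 4)) ≤ e := by
    have h1 : Tendsto (fun x : ℝ => Real.exp (-x)) atTop (𝓝 0) := Real.tendsto_exp_neg_atTop_nhds_zero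
    obtain ⟨x, hx1, hx2⟩ := ((h1.eventually (gt_mem_nhds he0)).and (eventually_gt_atTop 1)).exists
    refine ⟨2 * Real.sqrt x, by have := Real.sqrt_pos.2 (show (0:ℝ) < x by linarith); positivity, ?_⟩
    have h2 : (2 * Real.sqrt x) ^ 2 / 4 = x := by
      rw [mul_pow, Real.sq_sqrt (by linarith)]; ring
    rw [h2]; exact hx1.le
  obtain ⟨m, D, hD1, hcf⟩ := cf ((J * σ) ^ 2) Mc e (by positivity) hMc he0
  have hS0 : 0 < (D + 1) * (J * σ) := by positivity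
  refine ⟨m, D, (D + 1) * (J * σ), hS0, ?_⟩
  intro z X T A B Y hz hX hDT hY hXT hAB hBT hS hYS
  set V := ∑ p ∈ Prm X, ‖z p‖ ^ 2 with hV
  set r := Real.sqrt V with hr
  have hr0 : 0 < r := lt_of_lt_of_le hS0 hS
  have hV0 : 0 ≤ V := Finset.sum_nonneg fun _ _ => sq_nonneg _
  have hr2 : r ^ 2 = V := Real.sq_sqrt hV0
  have hT0 : 0 < T := by linarith
  set s := σ / r with hs
  have hs0 : 0 < s := by positivity
  have hcont : Continuous (fun t : ℝ => (PP z X t).re) :=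
    Complex.continuous_re.comp (Pool.Agent.R320.JL.PP_cont z X)
  -- the characteristic function
  have hchar : ∀ k : ℕ, 1 ≤ k → k ≤ J →
      ‖∫ t in A..B, cexp (I * ((k * (s * (PP z X t).re) : ℝ) : ℂ))‖ ≤ 2 * e * T := by
    intro k hk1 hkJ
    have hk0 : (0 : ℝ) < k := by exact_mod_cast hk1
    have hkJ' : (k : ℝ) ≤ J := by exact_mod_cast hkJ
    set w := r / (k * σ) with hw
    have hw0 : 0 < w := by positivity
    have hDw : D ≤ w := by
      rw [hw, le_div_iff₀ (by positivity)]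
      calc D * (k * σ) ≤ (D + 1) * (J * σ) := by gcongr; linarith
        _ ≤ r := hS
    have hVw : VS (nz z) X ≤ (J * σ) ^ 2 * w ^ 2 := by
      rw [VS_eqC, ← hV, ← hr2, hw, div_pow, mul_pow, mul_pow]
      rw [mul_div_assoc', le_div_iff₀ (by positivity)]
      have : (k : ℝ) ^ 2 ≤ (J : ℝ) ^ 2 := pow_le_pow_left₀ hk0.le hkJ' 2
      nlinarith [mul_nonneg (sq_nonneg r) (sq_nonneg σ)]
    have h1 := hcf z X T A B w hz hX hDT hDw hXT hAB hBT hVw
    have h2 : ∀ t : ℝ, (PP z X t).re / w = k * (s * (PP z X t).re) := by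
      intro t
      rw [hw, hs]
      field_simp
    simp_rw [h2] at h1
    have h3 : ‖((((B - A) * Real.exp (-(VS (nz z) X / (4 * w ^ 2))) : ℝ)) : ℂ)‖ ≤
        e * T := by
      rw [Complex.norm_real, Real.norm_eq_abs, abs_of_nonneg (mul_nonneg (by linarith) (Real.exp_pos _).le)]
      have h4 : Real.exp (-(VS (nz z) X / (4 * w ^ 2))) ≤ e := by
        refine le_trans (Real.exp_le_exp.2 ?_) hσ
        rw [VS_eqC, ← hV, ← hr2, hw]
        apply neg_le_neg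
        have h5 : r ^ 2 / (4 * (r / (k * σ)) ^ 2) = (k * σ) ^ 2 / 4 := by
          field_simp
        rw [h5, mul_pow]
        have h6 : (1 : ℝ) ≤ (k : ℝ) ^ 2 := one_le_pow₀ (by exact_mod_cast hk1)
        nlinarith [sq_nonneg σ]
      calc (B - A) * Real.exp (-(VS (nz z) X / (4 * w ^ 2))) ≤ T * e :=
            mul_le_mul hBT h4 (Real.exp_pos _).le hT0.le
        _ = e * T := mul_comm _ _
    calc ‖∫ t in A..B, cexp (I * ((k * (s * (PP z X t).re) : ℝ) : ℂ))‖ =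
        ‖((∫ t in A..B, cexp (I * ((k * (s * (PP z X t).re) : ℝ) : ℂ))) -
          ((((B - A) * Real.exp (-(VS (nz z) X / (4 * w ^ 2))) : ℝ)) : ℂ)) +
          ((((B - A) * Real.exp (-(VS (nz z) X / (4 * w ^ 2))) : ℝ)) : ℂ)‖ := by
            rw [sub_add_cancel]
      _ ≤ e * T + e * T := (norm_add_le _ _).trans (add_le_add h1 h3)
      _ = 2 * e * T := by ring
  have hint := KS_int hcont hAB hchar (by positivity)
  have hkc : Continuous (fun t => ‖KS J s ((PP z X t).re)‖ ^ 2) :=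
    ((KS_cont hcont J s).norm).pow 2
  have hch := cheb hkc (fun t => by positivity) hAB (show (0 : ℝ) < (J : ℝ) ^ 2 / 4 by positivity)
  have hsub : {t : ℝ | A ≤ t ∧ t ≤ B ∧ |(PP z X t).re| ≤ Y} ⊆
      {t : ℝ | A ≤ t ∧ t ≤ B ∧ (J : ℝ) ^ 2 / 4 ≤ ‖KS J s ((PP z X t).re)‖ ^ 2} := by
    rintro t ⟨h1, h2, h3⟩
    refine ⟨h1, h2, KS_large ?_⟩
    rw [abs_mul, abs_of_pos hs0, hs]
    calc (J : ℝ) * (σ / r * |(PP z X t).re|) = (J * σ) * |(PP z X t).re| / r := by ring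
      _ ≤ (J * σ) * Y / r := by gcongr
      _ ≤ Y * ((D + 1) * (J * σ)) / r := by
          apply div_le_div_of_nonneg_right _ hr0.le
          have : 0 ≤ (J * σ) * Y := by positivity
          nlinarith [mul_nonneg (show (0:ℝ) ≤ D by linarith) this]
      _ ≤ 1 := by rw [div_le_one hr0]; exact hYS
  have hfin : volume {t : ℝ | A ≤ t ∧ t ≤ B ∧ (J : ℝ) ^ 2 / 4 ≤ ‖KS J s ((PP z X t).re)‖ ^ 2} ≠ ⊤ := by
    have : {t : ℝ | A ≤ t ∧ t ≤ B ∧ (J : ℝ) ^ 2 / 4 ≤ ‖KS J s ((PP z X t).re)‖ ^ 2} ⊆ Set.Icc A B :=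
      fun t h => ⟨h.1, h.2.1⟩
    exact ne_top_of_le_ne_top (by rw [Real.volume_Icc]; exact ENNReal.ofReal_ne_top)
      (measure_mono this)
  calc volume.real {t : ℝ | A ≤ t ∧ t ≤ B ∧ |(PP z X t).re| ≤ Y} ≤
      volume.real {t : ℝ | A ≤ t ∧ t ≤ B ∧ (J : ℝ) ^ 2 / 4 ≤ ‖KS J s ((PP z X t).re)‖ ^ 2} :=
        measureReal_mono hsub hfin
    _ ≤ (∫ t in A..B, ‖KS J s ((PP z X t).re)‖ ^ 2) / ((J : ℝ) ^ 2 / 4) := hch
    _ ≤ (J * (B - A) + J ^ 2 * (2 * e * T)) / ((J : ℝ) ^ 2 / 4) := by gcongr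
    _ ≤ ε * T := by
        rw [div_le_iff₀ (by positivity)]
        have h6 : 1 ≤ J * e := by
          rw [div_lt_iff₀ he0] at hJ
          exact hJ.le
        have h7 : J * (B - A) ≤ J ^ 2 * (e * T) := by
          calc J * (B - A) ≤ J * T := by gcongr
            _ = J * T * 1 := by ring
            _ ≤ J * T * (J * e) := by gcongr
            _ = J ^ 2 * (e * T) := by ring
        have h8 : ε = 12 * e := by rw [he]; ring
        rw [h8]
        nlinarith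

/-- the weight of the prime `p` -/
def wv {k : ℕ} (b c : Fin k → ℝ) (p : ℕ) : ℂ := ∑ i, (b i : ℂ) * cexp (((-(c i * Real.log p) : ℝ) : ℂ) * I)

/-- linear combinations of the shifts -/
def MS {k : ℕ} (b c : Fin k → ℝ) (u : ℕ → ℝ) (X : ℕ) (t : ℝ) : ℝ := ∑ i, b i * TP u X (t + c i)

lemma MS_cont {k : ℕ} (b c : Fin k → ℝ) (u : ℕ → ℝ) (X : ℕ) : Continuous (MS b c u X) := by
  unfold MS
  exact continuous_finsetSum _ fun i _ =>
    continuous_const.mul ((TP_cont u X).comp (continuous_id.add continuous_const))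

lemma MS_eq {k : ℕ} (b c : Fin k → ℝ) (u : ℕ → ℝ) (X : ℕ) (t : ℝ) :
    MS b c u X t = (PP (fun p => (u p : ℂ) * wv b c p) X t).re := by
  unfold MS PP TP wv
  rw [Complex.re_sum, Pr_eq]
  simp_rw [Finset.mul_sum]
  rw [Finset.sum_comm]
  refine Finset.sum_congr rfl fun p hp => ?_
  rw [mem_Prm'] at hp
  have hp0 : p ≠ 0 := by omega
  rw [Complex.cpow_def_of_ne_zero (by exact_mod_cast hp0)]
  have h1 : Complex.log (p : ℂ) * (-(t : ℂ) * I) = ((-(t * Real.log p) : ℝ) : ℂ) * I := by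
    rw [← Complex.natCast_log]
    push_cast
    ring
  rw [h1, Finset.sum_mul, Complex.re_sum]
  refine Finset.sum_congr rfl fun i _ => ?_
  have h2 : (u p : ℂ) * ((b i : ℂ) * cexp (((-(c i * Real.log p) : ℝ) : ℂ) * I)) *
      cexp (((-(t * Real.log p) : ℝ) : ℂ) * I) =
      ((b i * u p : ℝ) : ℂ) * cexp (((-((t + c i) * Real.log p) : ℝ) : ℂ) * I) := by
    have : cexp (((-((t + c i) * Real.log p) : ℝ) : ℂ) * I) =
        cexp (((-(c i * Real.log p) : ℝ) : ℂ) * I) * cexp (((-(t * Real.log p) : ℝ) : ℂ) * I) := by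
      rw [← Complex.exp_add]
      congr 1
      push_cast
      ring
    rw [this]
    push_cast
    ring
  rw [h2, Complex.re_ofReal_mul, Complex.exp_ofReal_mul_I_re, Real.cos_neg]
  ring

lemma wv_bd {k : ℕ} (b c : Fin k → ℝ) (p : ℕ) : ‖wv b c p‖ ≤ ∑ i, |b i| := by
  unfold wv
  refine (norm_sum_le _ _).trans (Finset.sum_le_sum fun i _ => ?_)
  rw [norm_mul, Complex.norm_real, Real.norm_eq_abs, Complex.norm_exp_ofReal_mul_I, mul_one]

lemma wv_sq {k : ℕ} (b c : Fin k → ℝ) (p : ℕ) :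
    ‖wv b c p‖ ^ 2 = ∑ i, ∑ l, b i * b l * Real.cos ((c i - c l) * Real.log p) := by
  have h1 : ((‖wv b c p‖ ^ 2 : ℝ) : ℂ) = wv b c p * (starRingEnd ℂ) (wv b c p) := by
    rw [Complex.mul_conj, Complex.normSq_eq_norm_sq]
  have h2 : ‖wv b c p‖ ^ 2 = (wv b c p * (starRingEnd ℂ) (wv b c p)).re := by
    rw [← h1, Complex.ofReal_re]
  rw [h2]
  unfold wv
  rw [map_sum, Finset.sum_mul_sum, Complex.re_sum]
  refine Finset.sum_congr rfl fun i _ => ?_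
  rw [Complex.re_sum]
  refine Finset.sum_congr rfl fun l _ => ?_
  rw [map_mul, Complex.conj_ofReal, ← Complex.exp_conj, map_mul, Complex.conj_I, Complex.conj_ofReal]
  have h3 : (b i : ℂ) * cexp (((-(c i * Real.log p) : ℝ) : ℂ) * I) *
      ((b l : ℂ) * cexp (((-(c l * Real.log p) : ℝ) : ℂ) * -I)) =
      ((b i * b l : ℝ) : ℂ) * cexp (((-((c i - c l) * Real.log p) : ℝ) : ℂ) * I) := by
    have : cexp (((-((c i - c l) * Real.log p) : ℝ) : ℂ) * I) =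
        cexp (((-(c i * Real.log p) : ℝ) : ℂ) * I) * cexp (((-(c l * Real.log p) : ℝ) : ℂ) * -I) := by
      rw [← Complex.exp_add]
      congr 1
      push_cast
      ring
    rw [this]
    push_cast
    ring
  rw [h3, Complex.re_ofReal_mul, Complex.exp_ofReal_mul_I_re, Real.cos_neg]

/-- the mean square of a linear combination -/
lemma MS_sq {k : ℕ} (b c : Fin k → ℝ) {u : ℕ → ℝ} {K : ℝ} (hK : 0 < K) (hu : ∀ p, |u p| ≤ K) (X : ℕ)
    {A B : ℝ} (hAB : A ≤ B) : ∫ t in A..B, MS b c u X t ^ 2 ≤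
      (∑ i, |b i|) ^ 2 * ((B - A) / 2 * ∑ p ∈ Prm X, u p ^ 2 + 4 * K ^ 2 * (X : ℝ) ^ 3) := by
  have hB0 : 0 ≤ ∑ i, |b i| := Finset.sum_nonneg fun _ _ => abs_nonneg _
  have h1 : ∀ t, MS b c u X t ^ 2 ≤ (∑ i, |b i|) * ∑ i, |b i| * TP u X (t + c i) ^ 2 := by
    intro t
    have h2 := Finset.sum_mul_sq_le_sq_mul_sq (s := Finset.univ) (fun i => Real.sqrt |b i|)
      (fun i => Real.sqrt |b i| * |TP u X (t + c i)|)
    have h3 : |MS b c u X t| ≤ ∑ i, Real.sqrt |b i| * (Real.sqrt |b i| * |TP u X (t + c i)|) := by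
      unfold MS
      refine (Finset.abs_sum_le_sum_abs _ _).trans (Finset.sum_le_sum fun i _ => ?_)
      rw [abs_mul, ← mul_assoc, Real.mul_self_sqrt (abs_nonneg _)]
    have h4 : MS b c u X t ^ 2 ≤ (∑ i, Real.sqrt |b i| * (Real.sqrt |b i| * |TP u X (t + c i)|)) ^ 2 := by
      rw [← sq_abs]
      exact pow_le_pow_left₀ (abs_nonneg _) h3 2
    refine h4.trans (h2.trans (le_of_eq ?_))
    congr 1
    · exact Finset.sum_congr rfl fun i _ => Real.sq_sqrt (abs_nonneg _)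
    · refine Finset.sum_congr rfl fun i _ => ?_
      rw [mul_pow, Real.sq_sqrt (abs_nonneg _), sq_abs]
  have hc : ∀ i, Continuous (fun t => TP u X (t + c i) ^ 2) := fun i =>
    ((TP_cont u X).comp (continuous_id.add continuous_const)).pow 2
  have hi : ∀ i, ∫ t in A..B, TP u X (t + c i) ^ 2 ≤
      (B - A) / 2 * ∑ p ∈ Prm X, u p ^ 2 + 4 * K ^ 2 * (X : ℝ) ^ 3 := by
    intro i
    have i1 := (abs_le.1 (corr hK hu X A B (c i) (c i) hAB)).2
    simp only [sub_self, zero_mul, Real.cos_zero, mul_one] at i1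
    have e1 : (∫ t in A..B, TP u X (t + c i) ^ 2) =
        ∫ t in A..B, TP u X (t + c i) * TP u X (t + c i) := by
      refine intervalIntegral.integral_congr fun t _ => ?_
      show _ ^ 2 = _
      rw [pow_two]
    rw [e1]
    linarith
  calc ∫ t in A..B, MS b c u X t ^ 2 ≤ ∫ t in A..B, (∑ i, |b i|) * ∑ i, |b i| * TP u X (t + c i) ^ 2 := by
        apply intervalIntegral.integral_mono_on hAB
        · exact ((MS_cont b c u X).pow 2).intervalIntegrable _ _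
        · exact (continuous_const.mul (continuous_finsetSum _ fun i _ =>
            continuous_const.mul (hc i))).intervalIntegrable _ _
        · exact fun t _ => h1 t
    _ = (∑ i, |b i|) * ∑ i, |b i| * ∫ t in A..B, TP u X (t + c i) ^ 2 := by
        rw [intervalIntegral.integral_const_mul, intervalIntegral.integral_finsetSum]
        · congr 1
          refine Finset.sum_congr rfl fun i _ => ?_
          rw [intervalIntegral.integral_const_mul]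
        · intro i _
          exact (continuous_const.mul (hc i)).intervalIntegrable _ _
    _ ≤ (∑ i, |b i|) * ∑ i, |b i| * ((B - A) / 2 * ∑ p ∈ Prm X, u p ^ 2 + 4 * K ^ 2 * (X : ℝ) ^ 3) := by
        apply mul_le_mul_of_nonneg_left _ hB0
        exact Finset.sum_le_sum fun i _ => mul_le_mul_of_nonneg_left (hi i) (abs_nonneg _)
    _ = _ := by rw [← Finset.sum_mul]; ring

/-- the variance of a linear combination -/
lemma var_lim (hVAR : S_VAR) (hTWV : S_TWV) {k : ℕ} (b c : Fin k → ℝ) (hc : Function.Injective c)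
    {β : ℝ → ℝ} (hβ : Continuous β) (hs : ∀ ξ, 1 ≤ |ξ| → β ξ = 0) {N : ℝ} (hN : 1 ≤ N) :
    Tendsto (fun a : ℝ => ∑ p ∈ Prm ⌊Real.exp a⌋₊, ‖(up β N a p : ℂ) * wv b c p‖ ^ 2) atTop
      (𝓝 ((∑ i, b i ^ 2) * VN β N)) := by
  have h1 : ∀ a : ℝ, ∑ p ∈ Prm ⌊Real.exp a⌋₊, ‖(up β N a p : ℂ) * wv b c p‖ ^ 2 =
      ∑ i, ∑ l, b i * b l * ∑ p ∈ Prm ⌊Real.exp a⌋₊, up β N a p ^ 2 * Real.cos ((c i - c l) * Real.log p) := by
    intro a
    have e1 : ∀ p ∈ Prm ⌊Real.exp a⌋₊, ‖(up β N a p : ℂ) * wv b c p‖ ^ 2 =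
        ∑ i, ∑ l, b i * b l * (up β N a p ^ 2 * Real.cos ((c i - c l) * Real.log p)) := by
      intro p _
      rw [norm_mul, mul_pow, wv_sq, Complex.norm_real, Real.norm_eq_abs, sq_abs, Finset.mul_sum]
      refine Finset.sum_congr rfl fun i _ => ?_
      rw [Finset.mul_sum]
      refine Finset.sum_congr rfl fun l _ => ?_
      ring
    rw [Finset.sum_congr rfl e1, Finset.sum_comm]
    refine Finset.sum_congr rfl fun i _ => ?_
    rw [Finset.sum_comm]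
    refine Finset.sum_congr rfl fun l _ => ?_
    rw [Finset.mul_sum]
  simp_rw [h1]
  have h2 : (∑ i, b i ^ 2) * VN β N = ∑ i, ∑ l, b i * b l * (if i = l then VN β N else 0) := by
    rw [Finset.sum_mul]
    refine Finset.sum_congr rfl fun i _ => ?_
    simp only [mul_ite, mul_zero, Finset.sum_ite_eq, Finset.mem_univ, if_true]
    ring
  rw [h2]
  refine tendsto_finsetSum _ fun i _ => tendsto_finsetSum _ fun l _ => Tendsto.const_mul _ ?_
  by_cases hil : i = l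
  · subst hil
    simp only [sub_self, zero_mul, Real.cos_zero, mul_one, if_true]
    exact hVAR β hβ hs N hN
  · rw [if_neg hil]
    exact hTWV β hβ hs N (c i - c l) hN (sub_ne_zero.2 fun h => hil (hc h))

lemma MS_split {k : ℕ} (b c : Fin k → ℝ) (u : ℕ → ℝ) {x a : ℝ} (hxa : x ≤ a) (t : ℝ) :
    MS b c u ⌊Real.exp a⌋₊ t = MS b c u ⌊Real.exp x⌋₊ t + MS b c (hi u x) ⌊Real.exp a⌋₊ t := by
  unfold MS
  rw [← Finset.sum_add_distrib]
  refine Finset.sum_congr rfl fun i _ => ?_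
  rw [TP_split u hxa]
  ring

theorem t_ACQM : S_VAR → S_TWV → S_LOWV → S_TAILV → S_ACQM := by
  intro hVAR hTWV hLOWV hTAILV j C0 D β hK hD τ hτ hτ1 k b c hcinj hb Y ε hY hε
  have hβ0 : 0 < β 0 := by
    rw [hK.zero]
    have := Real.pi_pos
    positivity
  obtain ⟨cl, Cl, hcl, hCl, hV⟩ := hLOWV β hK.cont hβ0
  have hD0 : 0 ≤ D := (abs_nonneg _).trans (hD 0)
  obtain ⟨i0, hi0⟩ : ∃ i, b i ≠ 0 := by
    by_contra hcon
    push Not at hcon
    exact hb (funext hcon)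
  set B1 : ℝ := ∑ i, |b i| with hB1
  have hB1p : 0 < B1 := lt_of_lt_of_le (abs_pos.2 hi0)
    (Finset.single_le_sum (f := fun i => |b i|) (fun i _ => abs_nonneg _) (Finset.mem_univ i0))
  set B2 : ℝ := ∑ i, b i ^ 2 with hB2
  have hB2p : 0 < B2 := lt_of_lt_of_le (by positivity : 0 < b i0 ^ 2)
    (Finset.single_le_sum (f := fun i => b i ^ 2) (fun i _ => sq_nonneg _) (Finset.mem_univ i0))
  set K0 : ℝ := 4 * D + 1 with hK0
  have hK0p : 0 < K0 := by positivity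
  obtain ⟨m, D1, S, hS0, hanti⟩ := antiC (ε / 2) ((K0 * B1) ^ 2) (by positivity) (by positivity)
  obtain ⟨C2, hC2, htail⟩ := hTAILV β D hD
  -- the threshold
  set δ : ℝ := 1 / ((m : ℝ) + 2) with hδ
  have hm2 : (2 : ℝ) ≤ (m : ℝ) + 2 := by
    have : (0 : ℝ) ≤ m := Nat.cast_nonneg m
    linarith
  have hδ0 : 0 < δ := by positivity
  have hδ1 : δ ≤ 1 / 2 := by
    rw [hδ]
    exact div_le_div_of_nonneg_left (by norm_num) (by norm_num) hm2
  have hδm : δ * m ≤ 1 := by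
    rw [hδ, div_mul_eq_mul_div, one_mul, div_le_one (by linarith)]
    linarith
  set R : ℝ := C2 * Real.log (1 / δ) with hR
  have hR0 : 0 < R := by
    have : 1 < 1 / δ := by
      rw [lt_div_iff₀ hδ0]; linarith
    have := Real.log_pos this
    positivity
  set H : ℝ := Real.sqrt (2 * (B1 ^ 2 * R) / ε) with hH
  have hH0 : 0 < H := Real.sqrt_pos.2 (by positivity)
  have hH2 : H ^ 2 = 2 * (B1 ^ 2 * R) / ε := Real.sq_sqrt (by positivity)
  set Vm : ℝ := (S + (Y + H) * S) ^ 2 with hVm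
  have hVm0 : 0 < Vm := by positivity
  refine ⟨max 1 (Real.exp (((Vm + B1 ^ 2 * R + 1) / B2 + Cl) / cl)), le_max_left _ _, ?_⟩
  intro N hN
  have hN1 : 1 ≤ N := (le_max_left _ _).trans hN
  have hlogN : ((Vm + B1 ^ 2 * R + 1) / B2 + Cl) / cl ≤ Real.log N := by
    have h1 : Real.exp (((Vm + B1 ^ 2 * R + 1) / B2 + Cl) / cl) ≤ N := (le_max_right _ _).trans hN
    have := Real.log_le_log (Real.exp_pos _) h1
    rwa [Real.log_exp] at this
  have hVlow : Vm + B1 ^ 2 * R + 1 ≤ B2 * VN β N := by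
    have h1 := (hV N hN1).1
    rw [div_le_iff₀ hcl] at hlogN
    have h2 : (Vm + B1 ^ 2 * R + 1) / B2 ≤ VN β N := by linarith
    rw [div_le_iff₀ hB2p] at h2
    linarith
  have hat := a_tendsto hτ
  have ev1 : ∀ᶠ T : ℝ in atTop, B2 * VN β N - 1 < (∑ p ∈ Prm ⌊Real.exp (τ * Real.log T)⌋₊,
      ‖(up β N (τ * Real.log T) p : ℂ) * wv b c p‖ ^ 2) :=
    ((var_lim hVAR hTWV b c hcinj hK.cont hK.supp hN1).comp hat).eventually (lt_mem_nhds (by linarith))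
  have ev2 := hat.eventually (htail δ hδ0 hδ1)
  filter_upwards [ev1, ev2, eventually_ge_atTop D1, eventually_ge_atTop (1 : ℝ),
    sqrt_small (M := 4 * K0 ^ 2) (show (0 : ℝ) < R / 2 by positivity)] with T h1 h2 hTD hT1 h3
  simp only [Qs_eq]
  have hlogT : 0 ≤ Real.log T := Real.log_nonneg hT1
  have h2' := h2 N
  set a := τ * Real.log T with ha
  have ha0 : 0 ≤ a := by positivity
  set u := up β N a with hu
  have hub : ∀ p, |u p| ≤ K0 := fun p => (up_bd hD N a p).trans (by rw [hK0]; linarith)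
  have hxa : δ * a ≤ a := by nlinarith
  have hwsq : ∀ p, ‖(u p : ℂ) * wv b c p‖ ^ 2 ≤ B1 ^ 2 * u p ^ 2 := by
    intro p
    rw [norm_mul, mul_pow, Complex.norm_real, Real.norm_eq_abs, sq_abs, mul_comm]
    exact mul_le_mul_of_nonneg_right (pow_le_pow_left₀ (norm_nonneg _) (wv_bd b c p) 2) (sq_nonneg _)
  -- the small primes
  have hlow : ∑ p ∈ Prm ⌊Real.exp a⌋₊, ‖(u p : ℂ) * wv b c p‖ ^ 2 ≤
      ∑ p ∈ Prm ⌊Real.exp (δ * a)⌋₊, ‖(u p : ℂ) * wv b c p‖ ^ 2 + B1 ^ 2 * R := by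
    have e1 := sq_split (fun p => ‖(u p : ℂ) * wv b c p‖) hxa
    rw [e1]
    apply add_le_add le_rfl
    calc ∑ p ∈ (Prm ⌊Real.exp a⌋₊).filter (fun p : ℕ => δ * a < Real.log p), ‖(u p : ℂ) * wv b c p‖ ^ 2 ≤
        ∑ p ∈ (Prm ⌊Real.exp a⌋₊).filter (fun p : ℕ => δ * a < Real.log p), B1 ^ 2 * u p ^ 2 :=
          Finset.sum_le_sum fun p _ => hwsq p
      _ = B1 ^ 2 * ∑ p ∈ (Prm ⌊Real.exp a⌋₊).filter (fun p : ℕ => δ * a < Real.log p), u p ^ 2 := by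
          rw [Finset.mul_sum]
      _ ≤ B1 ^ 2 * R := mul_le_mul_of_nonneg_left h2' (sq_nonneg _)
  have hV1 : Vm ≤ ∑ p ∈ Prm ⌊Real.exp (δ * a)⌋₊, ‖(u p : ℂ) * wv b c p‖ ^ 2 := by linarith
  have hr1 : S + (Y + H) * S ≤ Real.sqrt (∑ p ∈ Prm ⌊Real.exp (δ * a)⌋₊,
      ‖(u p : ℂ) * wv b c p‖ ^ 2) := by
    apply Real.le_sqrt_of_sq_le
    exact hV1
  have hX1 : 1 ≤ ⌊Real.exp (δ * a)⌋₊ := by
    rw [Nat.one_le_floor_iff]
    exact Real.one_le_exp (by positivity)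
  have hXm : ((⌊Real.exp (δ * a)⌋₊ ^ m : ℕ) : ℝ) ≤ Real.sqrt T := by
    push_cast
    have h4 : ((⌊Real.exp (δ * a)⌋₊ : ℕ) : ℝ) ≤ Real.exp (δ * a) := Nat.floor_le (Real.exp_pos _).le
    calc ((⌊Real.exp (δ * a)⌋₊ : ℕ) : ℝ) ^ m ≤ Real.exp (δ * a) ^ m :=
          pow_le_pow_left₀ (Nat.cast_nonneg _) h4 m
      _ = Real.exp (m * (δ * a)) := by rw [← Real.exp_nat_mul]
      _ ≤ Real.exp (Real.log T / 2) := by
          apply Real.exp_le_exp.2
          calc (m : ℝ) * (δ * a) = (δ * m) * a := by ring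
            _ ≤ 1 * a := by gcongr
            _ = τ * Real.log T := by rw [one_mul]
            _ ≤ Real.log T / 2 := by nlinarith
      _ = Real.sqrt T := by
          rw [Real.sqrt_eq_rpow, Real.rpow_def_of_pos (by linarith)]
          congr 1; ring
  have hYH : 0 ≤ Y + H := by positivity
  have hzb : ∀ p, ‖(u p : ℂ) * wv b c p‖ ^ 2 ≤ (K0 * B1) ^ 2 := by
    intro p
    refine (hwsq p).trans ?_
    rw [mul_pow, mul_comm]
    apply mul_le_mul_of_nonneg_right _ (sq_nonneg _)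
    rw [← sq_abs]
    exact pow_le_pow_left₀ (abs_nonneg _) (hub p) 2
  have q1 := hanti (fun p => (u p : ℂ) * wv b c p) ⌊Real.exp (δ * a)⌋₊ T T (2 * T) (Y + H)
    hzb hX1 hTD hYH hXm
    (by linarith) (by linarith) (le_trans (by nlinarith) hr1) (le_trans (by nlinarith) hr1)
  simp_rw [← MS_eq] at q1
  -- the large primes
  have hhb : ∀ p, |hi u (δ * a) p| ≤ K0 := hi_bd hK0p.le hub _
  have i1 := MS_sq b c hK0p hhb ⌊Real.exp a⌋₊ (show T ≤ 2 * T by linarith)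
  rw [hi_sq] at i1
  have hX3 : ((⌊Real.exp a⌋₊ : ℕ) : ℝ) ^ 3 ≤ Real.sqrt T := X3_bd hτ hτ1 hT1
  have h5 : 4 * K0 ^ 2 * ((⌊Real.exp a⌋₊ : ℕ) : ℝ) ^ 3 ≤ R / 2 * T :=
    le_trans (mul_le_mul_of_nonneg_left hX3 (by positivity)) h3
  have i2 : ∫ t in T..(2 * T), MS b c (hi u (δ * a)) ⌊Real.exp a⌋₊ t ^ 2 ≤ B1 ^ 2 * R * T := by
    refine i1.trans ?_
    have h6 : (2 * T - T) / 2 * ∑ p ∈ (Prm ⌊Real.exp a⌋₊).filter (fun p : ℕ => δ * a < Real.log p),
        u p ^ 2 ≤ T / 2 * R := by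
      have : (2 * T - T) / 2 = T / 2 := by ring
      rw [this]
      exact mul_le_mul_of_nonneg_left h2' (by linarith)
    calc B1 ^ 2 * ((2 * T - T) / 2 * ∑ p ∈ (Prm ⌊Real.exp a⌋₊).filter (fun p : ℕ => δ * a < Real.log p),
        u p ^ 2 + 4 * K0 ^ 2 * ((⌊Real.exp a⌋₊ : ℕ) : ℝ) ^ 3) ≤ B1 ^ 2 * (T / 2 * R + R / 2 * T) :=
          mul_le_mul_of_nonneg_left (add_le_add h6 h5) (sq_nonneg _)
      _ = B1 ^ 2 * R * T := by ring
  have q2 := cheb (f := fun t => MS b c (hi u (δ * a)) ⌊Real.exp a⌋₊ t ^ 2)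
    ((MS_cont _ _ _ _).pow 2) (fun t => sq_nonneg _) (show T ≤ 2 * T by linarith)
    (show 0 < H ^ 2 by positivity)
  have q3 : (∫ t in T..(2 * T), MS b c (hi u (δ * a)) ⌊Real.exp a⌋₊ t ^ 2) / H ^ 2 ≤ ε / 2 * T := by
    rw [div_le_iff₀ (by positivity), hH2]
    refine i2.trans (le_of_eq ?_)
    field_simp
  have hfin : ∀ s : Set ℝ, s ⊆ Set.Icc T (2 * T) → volume s ≠ ⊤ := fun s hs =>
    ne_top_of_le_ne_top (by rw [Real.volume_Icc]; exact ENNReal.ofReal_ne_top) (measure_mono hs)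
  have hsub : {t : ℝ | T ≤ t ∧ t ≤ 2 * T ∧ |MS b c u ⌊Real.exp a⌋₊ t| ≤ Y} ⊆
      {t : ℝ | T ≤ t ∧ t ≤ 2 * T ∧ |MS b c u ⌊Real.exp (δ * a)⌋₊ t| ≤ Y + H} ∪
      {t : ℝ | T ≤ t ∧ t ≤ 2 * T ∧ H ^ 2 ≤ MS b c (hi u (δ * a)) ⌊Real.exp a⌋₊ t ^ 2} := by
    rintro t ⟨t1, t2, t3⟩
    by_cases hcase : |MS b c (hi u (δ * a)) ⌊Real.exp a⌋₊ t| < H
    · left
      refine ⟨t1, t2, ?_⟩
      rw [MS_split b c u hxa t] at t3
      have h7 : MS b c u ⌊Real.exp (δ * a)⌋₊ t = (MS b c u ⌊Real.exp (δ * a)⌋₊ t +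
          MS b c (hi u (δ * a)) ⌊Real.exp a⌋₊ t) - MS b c (hi u (δ * a)) ⌊Real.exp a⌋₊ t := by ring
      rw [h7]
      refine (abs_sub _ _).trans ?_
      linarith
    · right
      rw [not_lt] at hcase
      refine ⟨t1, t2, ?_⟩
      rw [← sq_abs (MS _ _ _ _ t)]
      exact pow_le_pow_left₀ hH0.le hcase 2
  calc volume.real {t : ℝ | T ≤ t ∧ t ≤ 2 * T ∧ |MS b c u ⌊Real.exp a⌋₊ t| ≤ Y} ≤
      volume.real ({t : ℝ | T ≤ t ∧ t ≤ 2 * T ∧ |MS b c u ⌊Real.exp (δ * a)⌋₊ t| ≤ Y + H} ∪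
      {t : ℝ | T ≤ t ∧ t ≤ 2 * T ∧ H ^ 2 ≤ MS b c (hi u (δ * a)) ⌊Real.exp a⌋₊ t ^ 2}) := by
        refine measureReal_mono hsub (hfin _ ?_)
        rintro t (ht | ht)
        · exact ⟨ht.1, ht.2.1⟩
        · exact ⟨ht.1, ht.2.1⟩
    _ ≤ volume.real {t : ℝ | T ≤ t ∧ t ≤ 2 * T ∧ |MS b c u ⌊Real.exp (δ * a)⌋₊ t| ≤ Y + H} +
        volume.real {t : ℝ | T ≤ t ∧ t ≤ 2 * T ∧ H ^ 2 ≤ MS b c (hi u (δ * a)) ⌊Real.exp a⌋₊ t ^ 2} :=
        measureReal_union_le _ _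
    _ ≤ ε / 2 * T + ε / 2 * T := add_le_add q1 (q2.trans q3)
    _ = ε * T := by ring

end

end Pool.Agent.V8H86.OR
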