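import Pool.Agent.V8H86.OR.Tp
import Pool.Agent.R320.JL.Cf

set_option autoImplicit false

/-!
Project OR (helper86): the prime sum is rarely small.
-/

namespace Pool.Agent.V8H86.OR

open Filter Topology MeasureTheory Complex
open Pool.Agent.Y745.SW
open Pool.Agent.V8Lead.OR
open Pool.Agent.Y248.SW (Ker BN)
open Pool.Agent.R320.JL (PP nz cf)
open Pool.Agent.Y743.CL (VS Pr mem_Pr)

noncomputable section

lemma Pr_eq (X : ℕ) : Pr X = Prm X := by
  ext p
  rw [mem_Pr, mem_Prm']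
  constructor
  · rintro ⟨h1, h2⟩; exact ⟨h1.one_le, h2, h1⟩
  · rintro ⟨_, h2, h3⟩; exact ⟨h3, h2⟩

lemma PP_re (u : ℕ → ℝ) (X : ℕ) (t : ℝ) : (PP (fun p => (u p : ℂ)) X t).re = TP u X t := by
  unfold PP TP
  rw [Complex.re_sum, Pr_eq]
  refine Finset.sum_congr rfl fun p hp => ?_
  rw [mem_Prm'] at hp
  have hp0 : p ≠ 0 := by omega
  rw [Complex.cpow_def_of_ne_zero (by exact_mod_cast hp0)]
  have h1 : Complex.log (p : ℂ) * (-(t : ℂ) * I) = ((-(t * Real.log p) : ℝ) : ℂ) * I := by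
    rw [← Complex.natCast_log]
    push_cast
    ring
  rw [h1, Complex.re_ofReal_mul, Complex.exp_ofReal_mul_I_re, Real.cos_neg]

lemma VS_eq (u : ℕ → ℝ) (X : ℕ) : VS (nz (fun p => (u p : ℂ))) X = ∑ p ∈ Prm X, u p ^ 2 := by
  unfold VS nz
  rw [Pr_eq]
  refine Finset.sum_congr rfl fun p _ => ?_
  rw [Complex.norm_real, Real.norm_eq_abs, sq_abs]

/-- the exponential sum used as a kernel -/
def KS (J : ℕ) (s x : ℝ) : ℂ := ∑ j ∈ Finset.range J, cexp (I * ((j * (s * x) : ℝ) : ℂ))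

lemma KS_large {J : ℕ} {s x : ℝ} (h : J * |s * x| ≤ 1) : (J : ℝ) ^ 2 / 4 ≤ ‖KS J s x‖ ^ 2 := by
  have h1 : (J : ℝ) / 2 ≤ (KS J s x).re := by
    unfold KS
    rw [Complex.re_sum]
    have h2 : ∀ j ∈ Finset.range J, (1 / 2 : ℝ) ≤ (cexp (I * ((j * (s * x) : ℝ) : ℂ))).re := by
      intro j hj
      rw [mul_comm I, Complex.exp_ofReal_mul_I_re]
      have h3 : |(j : ℝ) * (s * x)| ≤ 1 := by
        rw [abs_mul, Nat.abs_cast]
        refine le_trans ?_ h
        have : (j : ℝ) ≤ J := by exact_mod_cast (Finset.mem_range.1 hj).le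
        exact mul_le_mul_of_nonneg_right this (abs_nonneg _)
      have h4 := Real.one_sub_sq_div_two_le_cos (x := (j : ℝ) * (s * x))
      have h5 : ((j : ℝ) * (s * x)) ^ 2 ≤ 1 := by
        rw [← sq_abs]
        exact pow_le_one₀ (abs_nonneg _) h3
      linarith
    calc (J : ℝ) / 2 = ∑ _j ∈ Finset.range J, (1 / 2 : ℝ) := by
          rw [Finset.sum_const, Finset.card_range, nsmul_eq_mul]; ring
      _ ≤ _ := Finset.sum_le_sum h2
  have h6 : (J : ℝ) / 2 ≤ ‖KS J s x‖ := h1.trans ((le_abs_self _).trans (Complex.abs_re_le_norm _))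
  have h7 : 0 ≤ (J : ℝ) / 2 := by positivity
  calc (J : ℝ) ^ 2 / 4 = ((J : ℝ) / 2) ^ 2 := by ring
    _ ≤ _ := pow_le_pow_left₀ h7 h6 2

lemma KS_sq (J : ℕ) (s x : ℝ) : ((‖KS J s x‖ ^ 2 : ℝ) : ℂ) =
    ∑ j ∈ Finset.range J, ∑ l ∈ Finset.range J,
      cexp (I * ((((j : ℝ) - l) * (s * x) : ℝ) : ℂ)) := by
  have h1 : ((‖KS J s x‖ ^ 2 : ℝ) : ℂ) = KS J s x * (starRingEnd ℂ) (KS J s x) := by
    rw [Complex.mul_conj, Complex.normSq_eq_norm_sq]
  rw [h1]
  unfold KS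
  rw [map_sum, Finset.sum_mul_sum]
  refine Finset.sum_congr rfl fun j _ => Finset.sum_congr rfl fun l _ => ?_
  rw [← Complex.exp_conj, ← Complex.exp_add]
  congr 1
  rw [map_mul, Complex.conj_I, Complex.conj_ofReal]
  push_cast
  ring

lemma KS_cont {f : ℝ → ℝ} (hf : Continuous f) (J : ℕ) (s : ℝ) :
    Continuous (fun t => KS J s (f t)) := by
  unfold KS
  fun_prop

/-- the integral of the kernel -/
lemma KS_int {f : ℝ → ℝ} (hf : Continuous f) {J : ℕ} {s A B e : ℝ} (hAB : A ≤ B)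
    (h : ∀ k : ℕ, 1 ≤ k → k ≤ J → ‖∫ t in A..B, cexp (I * ((k * (s * f t) : ℝ) : ℂ))‖ ≤ e)
    (he : 0 ≤ e) :
    ∫ t in A..B, ‖KS J s (f t)‖ ^ 2 ≤ J * (B - A) + J ^ 2 * e := by
  have hc1 : ∀ k : ℝ, Continuous (fun t : ℝ => cexp (I * ((k * (s * f t) : ℝ) : ℂ))) := by
    intro k; fun_prop
  have h1 : ((∫ t in A..B, ‖KS J s (f t)‖ ^ 2 : ℝ) : ℂ) =
      ∑ j ∈ Finset.range J, ∑ l ∈ Finset.range J,
        ∫ t in A..B, cexp (I * ((((j : ℝ) - l) * (s * f t) : ℝ) : ℂ)) := by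
    rw [← intervalIntegral.integral_ofReal]
    simp_rw [KS_sq]
    rw [intervalIntegral.integral_finsetSum]
    · refine Finset.sum_congr rfl fun j _ => ?_
      rw [intervalIntegral.integral_finsetSum]
      intro l _
      exact (hc1 _).intervalIntegrable _ _
    · intro j _
      exact Continuous.intervalIntegrable (continuous_finsetSum _ fun l _ => hc1 _) _ _
  have h0 : 0 ≤ ∫ t in A..B, ‖KS J s (f t)‖ ^ 2 :=
    intervalIntegral.integral_nonneg hAB fun t _ => by positivity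
  have h2 : (∫ t in A..B, ‖KS J s (f t)‖ ^ 2) = ‖((∫ t in A..B, ‖KS J s (f t)‖ ^ 2 : ℝ) : ℂ)‖ := by
    rw [Complex.norm_real, Real.norm_eq_abs, abs_of_nonneg h0]
  rw [h2, h1]
  have hterm : ∀ j ∈ Finset.range J, ∀ l ∈ Finset.range J,
      ‖∫ t in A..B, cexp (I * ((((j : ℝ) - l) * (s * f t) : ℝ) : ℂ))‖ ≤
        (if j = l then (B - A) else 0) + e := by
    intro j hj l hl
    rw [Finset.mem_range] at hj hl
    rcases lt_trichotomy j l with hjl | hjl | hjl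
    · rw [if_neg hjl.ne, zero_add]
      have h3 := h (l - j) (by omega) (by omega)
      have h4 : (∫ t in A..B, cexp (I * ((((j : ℝ) - l) * (s * f t) : ℝ) : ℂ))) =
          (starRingEnd ℂ) (∫ t in A..B, cexp (I * (((l - j : ℕ) * (s * f t) : ℝ) : ℂ))) := by
        rw [← intervalIntegral.intervalIntegral_conj]
        refine intervalIntegral.integral_congr fun t _ => ?_
        show _ = (starRingEnd ℂ) _
        rw [← Complex.exp_conj]
        congr 1
        rw [map_mul, Complex.conj_I, Complex.conj_ofReal, Nat.cast_sub hjl.le]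
        push_cast
        ring
      rw [h4, RCLike.norm_conj]
      exact h3
    · subst hjl
      rw [if_pos rfl]
      simp only [sub_self, zero_mul, Complex.ofReal_zero, mul_zero, Complex.exp_zero]
      rw [intervalIntegral.integral_const]
      simp only [Complex.real_smul, mul_one, Complex.norm_real, Real.norm_eq_abs]
      rw [abs_of_nonneg (by linarith)]
      linarith
    · rw [if_neg hjl.ne', zero_add]
      have h3 := h (j - l) (by omega) (by omega)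
      rw [Nat.cast_sub hjl.le] at h3
      exact h3
  refine (norm_sum_le _ _).trans ?_
  refine (Finset.sum_le_sum fun j hj => (norm_sum_le _ _).trans
    (Finset.sum_le_sum fun l hl => hterm j hj l hl)).trans ?_
  have h5 : ∀ j ∈ Finset.range J, ∑ l ∈ Finset.range J, ((if j = l then (B - A) else 0) + e) =
      (B - A) + J * e := by
    intro j hj
    rw [Finset.sum_add_distrib, Finset.sum_ite_eq, if_pos hj, Finset.sum_const, Finset.card_range,
      nsmul_eq_mul]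
  rw [Finset.sum_congr rfl h5, Finset.sum_const, Finset.card_range, nsmul_eq_mul]
  apply le_of_eq
  ring

/-- a prime polynomial with large variance is rarely small -/
lemma anti (ε Mc : ℝ) (hε : 0 < ε) (hMc : 0 ≤ Mc) : ∃ (m : ℕ) (D S : ℝ), 0 < S ∧
    ∀ (u : ℕ → ℝ) (X : ℕ) (T A B Y : ℝ), (∀ p, u p ^ 2 ≤ Mc) → 1 ≤ X → D ≤ T → 0 ≤ Y →
    ((X ^ m : ℕ) : ℝ) ≤ Real.sqrt T → A ≤ B → B - A ≤ T →
    S ≤ Real.sqrt (∑ p ∈ Prm X, u p ^ 2) → Y * S ≤ Real.sqrt (∑ p ∈ Prm X, u p ^ 2) →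
    volume.real {t : ℝ | A ≤ t ∧ t ≤ B ∧ |TP u X t| ≤ Y} ≤ ε * T := by
  set e : ℝ := ε / 12 with he
  have he0 : 0 < e := by positivity
  obtain ⟨J, hJ⟩ := exists_nat_gt (1 / e)
  have hJ0 : (0 : ℝ) < J := lt_trans (by positivity) hJ
  have hJ1 : 1 ≤ J := by
    have : 0 < J := by exact_mod_cast hJ0
    exact this
  -- `σ`
  obtain ⟨σ, hσ0, hσ⟩ : ∃ σ : ℝ, 0 < σ ∧ Real.exp (-(σ ^ 2 / 4)) ≤ e := by
    have h1 : Tendsto (fun x : ℝ => Real.exp (-x)) atTop (𝓝 0) := Real.tendsto_exp_neg_atTop_nhds_zero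
    obtain ⟨x, hx1, hx2⟩ := ((h1.eventually (gt_mem_nhds he0)).and (eventually_gt_atTop 1)).exists
    refine ⟨2 * Real.sqrt x, by have := Real.sqrt_pos.2 (show (0:ℝ) < x by linarith); positivity, ?_⟩
    have h2 : (2 * Real.sqrt x) ^ 2 / 4 = x := by
      rw [mul_pow, Real.sq_sqrt (by linarith)]; ring
    rw [h2]; exact hx1.le
  obtain ⟨m, D, hD1, hcf⟩ := cf ((J * σ) ^ 2) Mc e (by positivity) hMc he0
  have hS0 : 0 < (D + 1) * (J * σ) := by positivity
  refine ⟨m, D, (D + 1) * (J * σ), hS0, ?_⟩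
  intro u X T A B Y hu hX hDT hY hXT hAB hBT hS hYS
  set V := ∑ p ∈ Prm X, u p ^ 2 with hV
  set r := Real.sqrt V with hr
  have hr0 : 0 < r := lt_of_lt_of_le hS0 hS
  have hV0 : 0 ≤ V := Finset.sum_nonneg fun _ _ => sq_nonneg _
  have hr2 : r ^ 2 = V := Real.sq_sqrt hV0
  have hT0 : 0 < T := by linarith
  set s := σ / r with hs
  have hs0 : 0 < s := by positivity
  -- the characteristic function
  have hchar : ∀ k : ℕ, 1 ≤ k → k ≤ J →
      ‖∫ t in A..B, cexp (I * ((k * (s * TP u X t) : ℝ) : ℂ))‖ ≤ 2 * e * T := by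
    intro k hk1 hkJ
    have hk0 : (0 : ℝ) < k := by exact_mod_cast hk1
    have hkJ' : (k : ℝ) ≤ J := by exact_mod_cast hkJ
    set w := r / (k * σ) with hw
    have hw0 : 0 < w := by positivity
    have hDw : D ≤ w := by
      rw [hw, le_div_iff₀ (by positivity)]
      calc D * (k * σ) ≤ (D + 1) * (J * σ) := by gcongr; linarith
        _ ≤ r := hS
    have hVw : VS (nz (fun p => (u p : ℂ))) X ≤ (J * σ) ^ 2 * w ^ 2 := by
      rw [VS_eq, ← hV, ← hr2, hw, div_pow, mul_pow, mul_pow]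
      rw [mul_div_assoc', le_div_iff₀ (by positivity)]
      have : (k : ℝ) ^ 2 ≤ (J : ℝ) ^ 2 := pow_le_pow_left₀ hk0.le hkJ' 2
      nlinarith [mul_nonneg (sq_nonneg r) (sq_nonneg σ)]
    have hz : ∀ p, ‖((u p : ℝ) : ℂ)‖ ^ 2 ≤ Mc := by
      intro p
      rw [Complex.norm_real, Real.norm_eq_abs, sq_abs]
      exact hu p
    have h1 := hcf (fun p => (u p : ℂ)) X T A B w hz hX hDT hDw hXT hAB hBT hVw
    have h2 : ∀ t : ℝ, (PP (fun p => (u p : ℂ)) X t).re / w = k * (s * TP u X t) := by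
      intro t
      rw [PP_re, hw, hs]
      field_simp
    simp_rw [h2] at h1
    have h3 : ‖((((B - A) * Real.exp (-(VS (nz (fun p => (u p : ℂ))) X / (4 * w ^ 2))) : ℝ)) : ℂ)‖ ≤
        e * T := by
      rw [Complex.norm_real, Real.norm_eq_abs, abs_of_nonneg (mul_nonneg (by linarith) (Real.exp_pos _).le)]
      have h4 : Real.exp (-(VS (nz (fun p => (u p : ℂ))) X / (4 * w ^ 2))) ≤ e := by
        refine le_trans (Real.exp_le_exp.2 ?_) hσ
        rw [VS_eq, ← hV, ← hr2, hw]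
        apply neg_le_neg
        have h5 : r ^ 2 / (4 * (r / (k * σ)) ^ 2) = (k * σ) ^ 2 / 4 := by
          field_simp
        rw [h5, mul_pow]
        have h6 : (1 : ℝ) ≤ (k : ℝ) ^ 2 := one_le_pow₀ (by exact_mod_cast hk1)
        nlinarith [sq_nonneg σ]
      calc (B - A) * Real.exp (-(VS (nz (fun p => (u p : ℂ))) X / (4 * w ^ 2))) ≤ T * e :=
            mul_le_mul hBT h4 (Real.exp_pos _).le hT0.le
        _ = e * T := mul_comm _ _
    calc ‖∫ t in A..B, cexp (I * ((k * (s * TP u X t) : ℝ) : ℂ))‖ =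
        ‖((∫ t in A..B, cexp (I * ((k * (s * TP u X t) : ℝ) : ℂ))) -
          ((((B - A) * Real.exp (-(VS (nz (fun p => (u p : ℂ))) X / (4 * w ^ 2))) : ℝ)) : ℂ)) +
          ((((B - A) * Real.exp (-(VS (nz (fun p => (u p : ℂ))) X / (4 * w ^ 2))) : ℝ)) : ℂ)‖ := by
            rw [sub_add_cancel]
      _ ≤ e * T + e * T := (norm_add_le _ _).trans (add_le_add h1 h3)
      _ = 2 * e * T := by ring
  have hint := KS_int (TP_cont u X) hAB hchar (by positivity)
  have hkc : Continuous (fun t => ‖KS J s (TP u X t)‖ ^ 2) :=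
    ((KS_cont (TP_cont u X) J s).norm).pow 2
  have hch := cheb hkc (fun t => by positivity) hAB (show (0 : ℝ) < (J : ℝ) ^ 2 / 4 by positivity)
  have hsub : {t : ℝ | A ≤ t ∧ t ≤ B ∧ |TP u X t| ≤ Y} ⊆
      {t : ℝ | A ≤ t ∧ t ≤ B ∧ (J : ℝ) ^ 2 / 4 ≤ ‖KS J s (TP u X t)‖ ^ 2} := by
    rintro t ⟨h1, h2, h3⟩
    refine ⟨h1, h2, KS_large ?_⟩
    rw [abs_mul, abs_of_pos hs0, hs]
    calc (J : ℝ) * (σ / r * |TP u X t|) = (J * σ) * |TP u X t| / r := by ring
      _ ≤ (J * σ) * Y / r := by gcongr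
      _ ≤ Y * ((D + 1) * (J * σ)) / r := by
          apply div_le_div_of_nonneg_right _ hr0.le
          have : 0 ≤ (J * σ) * Y := by positivity
          nlinarith [mul_nonneg (show (0:ℝ) ≤ D by linarith) this]
      _ ≤ 1 := by rw [div_le_one hr0]; exact hYS
  have hfin : volume {t : ℝ | A ≤ t ∧ t ≤ B ∧ (J : ℝ) ^ 2 / 4 ≤ ‖KS J s (TP u X t)‖ ^ 2} ≠ ⊤ := by
    have : {t : ℝ | A ≤ t ∧ t ≤ B ∧ (J : ℝ) ^ 2 / 4 ≤ ‖KS J s (TP u X t)‖ ^ 2} ⊆ Set.Icc A B :=
      fun t h => ⟨h.1, h.2.1⟩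
    exact ne_top_of_le_ne_top (by rw [Real.volume_Icc]; exact ENNReal.ofReal_ne_top)
      (measure_mono this)
  calc volume.real {t : ℝ | A ≤ t ∧ t ≤ B ∧ |TP u X t| ≤ Y} ≤
      volume.real {t : ℝ | A ≤ t ∧ t ≤ B ∧ (J : ℝ) ^ 2 / 4 ≤ ‖KS J s (TP u X t)‖ ^ 2} :=
        measureReal_mono hsub hfin
    _ ≤ (∫ t in A..B, ‖KS J s (TP u X t)‖ ^ 2) / ((J : ℝ) ^ 2 / 4) := hch
    _ ≤ (J * (B - A) + J ^ 2 * (2 * e * T)) / ((J : ℝ) ^ 2 / 4) := by gcongr
    _ ≤ ε * T := by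
        rw [div_le_iff₀ (by positivity)]
        have h6 : 1 ≤ J * e := by
          rw [div_lt_iff₀ he0] at hJ
          exact hJ.le
        have h7 : J * (B - A) ≤ J ^ 2 * (e * T) := by
          calc J * (B - A) ≤ J * T := by gcongr
            _ = J * T * 1 := by ring
            _ ≤ J * T * (J * e) := by gcongr
            _ = J ^ 2 * (e * T) := by ring
        have h8 : ε = 12 * e := by rw [he]; ring
        rw [h8]
        nlinarith

end

end Pool.Agent.V8H86.OR
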