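import Pool.Agent.V8H86.OR.Acq

set_option autoImplicit false

/-!
Project OR (helper86): the prime sum is rarely small, the statement for the windows.
-/

namespace Pool.Agent.V8H86.OR

open Filter Topology MeasureTheory Complex
open Pool.Agent.Y745.SW
open Pool.Agent.V8Lead.OR
open Pool.Agent.Y248.SW (Ker BN)

noncomputable section

/-- restriction to the primes above `x` -/
def hi (u : ℕ → ℝ) (x : ℝ) (p : ℕ) : ℝ := if x < Real.log p then u p else 0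

lemma TP_split (u : ℕ → ℝ) {x a : ℝ} (hxa : x ≤ a) (t : ℝ) :
    TP u ⌊Real.exp a⌋₊ t = TP u ⌊Real.exp x⌋₊ t + TP (hi u x) ⌊Real.exp a⌋₊ t := by
  unfold TP hi
  have h1 : Prm ⌊Real.exp x⌋₊ = (Prm ⌊Real.exp a⌋₊).filter (fun p : ℕ => ¬ x < Real.log p) := by
    ext p
    rw [Finset.mem_filter, mem_Prm', mem_Prm', not_lt]
    constructor
    · rintro ⟨h1, h2, h3⟩
      have hp : (0 : ℝ) < p := by exact_mod_cast h1
      have h4 : (p : ℝ) ≤ Real.exp x := (Nat.le_floor_iff (Real.exp_pos _).le).1 h2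
      have h5 : Real.log p ≤ x := (Real.log_le_iff_le_exp hp).2 h4
      refine ⟨⟨h1, ?_, h3⟩, h5⟩
      exact (Nat.le_floor_iff (Real.exp_pos _).le).2 (h4.trans (Real.exp_le_exp.2 hxa))
    · rintro ⟨⟨h1, h2, h3⟩, h4⟩
      have hp : (0 : ℝ) < p := by exact_mod_cast h1
      refine ⟨h1, ?_, h3⟩
      exact (Nat.le_floor_iff (Real.exp_pos _).le).2 ((Real.log_le_iff_le_exp hp).1 h4)
  rw [h1]
  have h2 : ∑ p ∈ Prm ⌊Real.exp a⌋₊, (if x < Real.log p then u p else 0) * Real.cos (t * Real.log p)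
      = ∑ p ∈ (Prm ⌊Real.exp a⌋₊).filter (fun p : ℕ => x < Real.log p),
        u p * Real.cos (t * Real.log p) := by
    rw [Finset.sum_filter]
    refine Finset.sum_congr rfl fun p _ => ?_
    split_ifs <;> simp
  rw [h2, add_comm, Finset.sum_filter_add_sum_filter_not]

lemma sq_split (u : ℕ → ℝ) {x a : ℝ} (hxa : x ≤ a) :
    ∑ p ∈ Prm ⌊Real.exp a⌋₊, u p ^ 2 = ∑ p ∈ Prm ⌊Real.exp x⌋₊, u p ^ 2 +
      ∑ p ∈ (Prm ⌊Real.exp a⌋₊).filter (fun p : ℕ => x < Real.log p), u p ^ 2 := by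
  have h1 : Prm ⌊Real.exp x⌋₊ = (Prm ⌊Real.exp a⌋₊).filter (fun p : ℕ => ¬ x < Real.log p) := by
    ext p
    rw [Finset.mem_filter, mem_Prm', mem_Prm', not_lt]
    constructor
    · rintro ⟨h1, h2, h3⟩
      have hp : (0 : ℝ) < p := by exact_mod_cast h1
      have h4 : (p : ℝ) ≤ Real.exp x := (Nat.le_floor_iff (Real.exp_pos _).le).1 h2
      have h5 : Real.log p ≤ x := (Real.log_le_iff_le_exp hp).2 h4
      refine ⟨⟨h1, ?_, h3⟩, h5⟩
      exact (Nat.le_floor_iff (Real.exp_pos _).le).2 (h4.trans (Real.exp_le_exp.2 hxa))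
    · rintro ⟨⟨h1, h2, h3⟩, h4⟩
      have hp : (0 : ℝ) < p := by exact_mod_cast h1
      refine ⟨h1, ?_, h3⟩
      exact (Nat.le_floor_iff (Real.exp_pos _).le).2 ((Real.log_le_iff_le_exp hp).1 h4)
  rw [h1, add_comm, Finset.sum_filter_add_sum_filter_not]

lemma hi_sq (u : ℕ → ℝ) (x : ℝ) (X : ℕ) : ∑ p ∈ Prm X, hi u x p ^ 2 =
    ∑ p ∈ (Prm X).filter (fun p : ℕ => x < Real.log p), u p ^ 2 := by
  unfold hi
  rw [Finset.sum_filter]
  refine Finset.sum_congr rfl fun p _ => ?_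
  split_ifs <;> simp

lemma hi_bd {u : ℕ → ℝ} {K : ℝ} (hK : 0 ≤ K) (hu : ∀ p, |u p| ≤ K) (x : ℝ) (p : ℕ) :
    |hi u x p| ≤ K := by
  unfold hi
  split_ifs
  · exact hu p
  · simpa using hK

theorem t_ACQ : S_VAR → S_LOWV → S_TAILV → S_ACQ := by
  intro hVAR hLOWV hTAILV j C0 D β hK hD τ hτ hτ1 Y ε hY hε
  have hβ0 : 0 < β 0 := by
    rw [hK.zero]
    have := Real.pi_pos
    positivity
  obtain ⟨cl, Cl, hcl, hCl, hV⟩ := hLOWV β hK.cont hβ0
  have hD0 : 0 ≤ D := (abs_nonneg _).trans (hD 0)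
  set K0 : ℝ := 4 * D + 1 with hK0
  have hK0p : 0 < K0 := by positivity
  obtain ⟨m, D1, S, hS0, hanti⟩ := anti (ε / 2) (K0 ^ 2) (by positivity) (by positivity)
  obtain ⟨C2, hC2, htail⟩ := hTAILV β D hD
  -- the threshold
  set δ : ℝ := 1 / ((m : ℝ) + 2) with hδ
  have hm2 : (2 : ℝ) ≤ (m : ℝ) + 2 := by
    have : (0 : ℝ) ≤ m := Nat.cast_nonneg m
    linarith
  have hδ0 : 0 < δ := by positivity
  have hδ1 : δ ≤ 1 / 2 := by
    rw [hδ]
    exact div_le_div_of_nonneg_left (by norm_num) (by norm_num) hm2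
  have hδm : δ * m ≤ 1 := by
    rw [hδ, div_mul_eq_mul_div, one_mul, div_le_one (by linarith)]
    linarith
  set R : ℝ := C2 * Real.log (1 / δ) with hR
  have hR0 : 0 < R := by
    have : 1 < 1 / δ := by
      rw [lt_div_iff₀ hδ0]; linarith
    have := Real.log_pos this
    positivity
  set H : ℝ := Real.sqrt (2 * R / ε) with hH
  have hH0 : 0 < H := Real.sqrt_pos.2 (by positivity)
  have hH2 : H ^ 2 = 2 * R / ε := Real.sq_sqrt (by positivity)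
  set Vm : ℝ := (S + (Y + H) * S) ^ 2 with hVm
  have hVm0 : 0 < Vm := by positivity
  refine ⟨max 1 (Real.exp ((Vm + R + 1 + Cl) / cl)), le_max_left _ _, ?_⟩
  intro N hN
  have hN1 : 1 ≤ N := (le_max_left _ _).trans hN
  have hlogN : (Vm + R + 1 + Cl) / cl ≤ Real.log N := by
    have h1 : Real.exp ((Vm + R + 1 + Cl) / cl) ≤ N := (le_max_right _ _).trans hN
    have := Real.log_le_log (Real.exp_pos _) h1
    rwa [Real.log_exp] at this
  have hVlow : Vm + R + 1 ≤ VN β N := by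
    have h1 := (hV N hN1).1
    rw [div_le_iff₀ hcl] at hlogN
    linarith
  have hat := a_tendsto hτ
  have ev1 : ∀ᶠ T : ℝ in atTop, VN β N - 1 < (∑ p ∈ Prm ⌊Real.exp (τ * Real.log T)⌋₊,
      up β N (τ * Real.log T) p ^ 2) :=
    ((hVAR β hK.cont hK.supp N hN1).comp hat).eventually (lt_mem_nhds (by linarith))
  have ev2 := hat.eventually (htail δ hδ0 hδ1)
  filter_upwards [ev1, ev2, eventually_ge_atTop D1, eventually_ge_atTop (1 : ℝ),
    sqrt_small (M := 4 * K0 ^ 2) (show (0 : ℝ) < R / 2 by positivity)] with T h1 h2 hTD hT1 h3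
  simp only [Qs_eq]
  have hlogT : 0 ≤ Real.log T := Real.log_nonneg hT1
  have h2' := h2 N
  set a := τ * Real.log T with ha
  have ha0 : 0 ≤ a := by positivity
  set u := up β N a with hu
  have hub : ∀ p, |u p| ≤ K0 := fun p => (up_bd hD N a p).trans (by rw [hK0]; linarith)
  have hxa : δ * a ≤ a := by nlinarith
  have hsplit := sq_split u hxa
  -- the small primes
  have hV1 : Vm ≤ ∑ p ∈ Prm ⌊Real.exp (δ * a)⌋₊, u p ^ 2 := by linarith
  have hr1 : S + (Y + H) * S ≤ Real.sqrt (∑ p ∈ Prm ⌊Real.exp (δ * a)⌋₊, u p ^ 2) := by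
    apply Real.le_sqrt_of_sq_le
    exact hV1
  have hX1 : 1 ≤ ⌊Real.exp (δ * a)⌋₊ := by
    rw [Nat.one_le_floor_iff]
    exact Real.one_le_exp (by positivity)
  have hXm : ((⌊Real.exp (δ * a)⌋₊ ^ m : ℕ) : ℝ) ≤ Real.sqrt T := by
    push_cast
    have h4 : ((⌊Real.exp (δ * a)⌋₊ : ℕ) : ℝ) ≤ Real.exp (δ * a) := Nat.floor_le (Real.exp_pos _).le
    calc ((⌊Real.exp (δ * a)⌋₊ : ℕ) : ℝ) ^ m ≤ Real.exp (δ * a) ^ m :=
          pow_le_pow_left₀ (Nat.cast_nonneg _) h4 m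
      _ = Real.exp (m * (δ * a)) := by rw [← Real.exp_nat_mul]
      _ ≤ Real.exp (Real.log T / 2) := by
          apply Real.exp_le_exp.2
          calc (m : ℝ) * (δ * a) = (δ * m) * a := by ring
            _ ≤ 1 * a := by gcongr
            _ = τ * Real.log T := by rw [one_mul]
            _ ≤ Real.log T / 2 := by nlinarith
      _ = Real.sqrt T := by
          rw [Real.sqrt_eq_rpow, Real.rpow_def_of_pos (by linarith)]
          congr 1; ring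
  have hYH : 0 ≤ Y + H := by positivity
  have q1 := hanti u ⌊Real.exp (δ * a)⌋₊ T T (2 * T) (Y + H)
    (fun p => by rw [← sq_abs]; exact pow_le_pow_left₀ (abs_nonneg _) (hub p) 2) hX1 hTD hYH hXm
    (by linarith) (by linarith) (le_trans (by nlinarith) hr1) (le_trans (by nlinarith) hr1)
  -- the large primes
  have hhb : ∀ p, |hi u (δ * a) p| ≤ K0 := hi_bd hK0p.le hub _
  have i1 := (abs_le.1 (corr hK0p hhb ⌊Real.exp a⌋₊ T (2 * T) 0 0 (by linarith))).2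
  simp only [add_zero, sub_self, zero_mul, Real.cos_zero, mul_one] at i1
  rw [hi_sq] at i1
  have hX3 : ((⌊Real.exp a⌋₊ : ℕ) : ℝ) ^ 3 ≤ Real.sqrt T := X3_bd hτ hτ1 hT1
  have h5 : 4 * K0 ^ 2 * ((⌊Real.exp a⌋₊ : ℕ) : ℝ) ^ 3 ≤ R / 2 * T :=
    le_trans (mul_le_mul_of_nonneg_left hX3 (by positivity)) h3
  have i2 : ∫ t in T..(2 * T), TP (hi u (δ * a)) ⌊Real.exp a⌋₊ t ^ 2 ≤ R * T := by
    have e1 : (∫ t in T..(2 * T), TP (hi u (δ * a)) ⌊Real.exp a⌋₊ t ^ 2) =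
        ∫ t in T..(2 * T), TP (hi u (δ * a)) ⌊Real.exp a⌋₊ t * TP (hi u (δ * a)) ⌊Real.exp a⌋₊ t := by
      refine intervalIntegral.integral_congr fun t _ => ?_
      show _ ^ 2 = _
      rw [pow_two]
    rw [e1]
    have h6 : (2 * T - T) / 2 * ∑ p ∈ (Prm ⌊Real.exp a⌋₊).filter (fun p : ℕ => δ * a < Real.log p),
        u p ^ 2 ≤ T / 2 * R := by
      have : (2 * T - T) / 2 = T / 2 := by ring
      rw [this]
      exact mul_le_mul_of_nonneg_left h2' (by linarith)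
    linarith
  have q2 := cheb (f := fun t => TP (hi u (δ * a)) ⌊Real.exp a⌋₊ t ^ 2)
    ((TP_cont _ _).pow 2) (fun t => sq_nonneg _) (show T ≤ 2 * T by linarith)
    (show 0 < H ^ 2 by positivity)
  have q3 : (∫ t in T..(2 * T), TP (hi u (δ * a)) ⌊Real.exp a⌋₊ t ^ 2) / H ^ 2 ≤ ε / 2 * T := by
    rw [div_le_iff₀ (by positivity), hH2]
    refine i2.trans (le_of_eq ?_)
    field_simp
  have hfin : ∀ s : Set ℝ, s ⊆ Set.Icc T (2 * T) → volume s ≠ ⊤ := fun s hs =>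
    ne_top_of_le_ne_top (by rw [Real.volume_Icc]; exact ENNReal.ofReal_ne_top) (measure_mono hs)
  have hsub : {t : ℝ | T ≤ t ∧ t ≤ 2 * T ∧ |TP u ⌊Real.exp a⌋₊ t| ≤ Y} ⊆
      {t : ℝ | T ≤ t ∧ t ≤ 2 * T ∧ |TP u ⌊Real.exp (δ * a)⌋₊ t| ≤ Y + H} ∪
      {t : ℝ | T ≤ t ∧ t ≤ 2 * T ∧ H ^ 2 ≤ TP (hi u (δ * a)) ⌊Real.exp a⌋₊ t ^ 2} := by
    rintro t ⟨t1, t2, t3⟩
    by_cases hcase : |TP (hi u (δ * a)) ⌊Real.exp a⌋₊ t| < H
    · left
      refine ⟨t1, t2, ?_⟩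
      rw [TP_split u hxa t] at t3
      have h7 : TP u ⌊Real.exp (δ * a)⌋₊ t = (TP u ⌊Real.exp (δ * a)⌋₊ t +
          TP (hi u (δ * a)) ⌊Real.exp a⌋₊ t) - TP (hi u (δ * a)) ⌊Real.exp a⌋₊ t := by ring
      rw [h7]
      refine (abs_sub _ _).trans ?_
      linarith
    · right
      rw [not_lt] at hcase
      refine ⟨t1, t2, ?_⟩
      rw [← sq_abs (TP _ _ t)]
      exact pow_le_pow_left₀ hH0.le hcase 2
  calc volume.real {t : ℝ | T ≤ t ∧ t ≤ 2 * T ∧ |TP u ⌊Real.exp a⌋₊ t| ≤ Y} ≤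
      volume.real ({t : ℝ | T ≤ t ∧ t ≤ 2 * T ∧ |TP u ⌊Real.exp (δ * a)⌋₊ t| ≤ Y + H} ∪
      {t : ℝ | T ≤ t ∧ t ≤ 2 * T ∧ H ^ 2 ≤ TP (hi u (δ * a)) ⌊Real.exp a⌋₊ t ^ 2}) := by
        refine measureReal_mono hsub (hfin _ ?_)
        rintro t (ht | ht)
        · exact ⟨ht.1, ht.2.1⟩
        · exact ⟨ht.1, ht.2.1⟩
    _ ≤ volume.real {t : ℝ | T ≤ t ∧ t ≤ 2 * T ∧ |TP u ⌊Real.exp (δ * a)⌋₊ t| ≤ Y + H} +
        volume.real {t : ℝ | T ≤ t ∧ t ≤ 2 * T ∧ H ^ 2 ≤ TP (hi u (δ * a)) ⌊Real.exp a⌋₊ t ^ 2} :=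
        measureReal_union_le _ _
    _ ≤ ε / 2 * T + ε / 2 * T := add_le_add q1 (q2.trans q3)
    _ = ε * T := by ring

end

end Pool.Agent.V8H86.OR
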