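import Pool.Agent.V8H86.OR.Tp

set_option autoImplicit false

/-!
Project OR (helper86): the difference of the windows at `t` and `t - c` is large in mean.
-/

namespace Pool.Agent.V8H86.OR

open Filter Topology MeasureTheory Complex H370
open Pool.Agent.Y745.SW
open Pool.Agent.V8Lead.OR
open Pool.Agent.Y248.SW (Ker BN)

noncomputable section

/-- the coefficients of the difference -/
def wd (u : ℕ → ℝ) (c : ℝ) (p : ℕ) : ℂ := (u p : ℂ) * (1 - cexp ((c * Real.log p : ℝ) * I))

lemma wd_norm (u : ℕ → ℝ) (c : ℝ) (p : ℕ) : ‖wd u c p‖ ≤ 2 * |u p| := by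
  unfold wd
  rw [norm_mul, Complex.norm_real, Real.norm_eq_abs, mul_comm]
  refine mul_le_mul_of_nonneg_right ?_ (abs_nonneg _)
  refine (norm_sub_le _ _).trans ?_
  rw [Complex.norm_exp_ofReal_mul_I]
  norm_num

lemma cpow_eq {p : ℕ} (hp : p ≠ 0) (t : ℝ) :
    (p : ℂ) ^ (-(t : ℂ) * I) = cexp ((-(t * Real.log p) : ℝ) * I) := by
  rw [Complex.cpow_def_of_ne_zero (by exact_mod_cast hp)]
  congr 1
  rw [← Complex.natCast_log]
  push_cast
  ring

lemma diff_eq (u : ℕ → ℝ) (c : ℝ) (X : ℕ) (t : ℝ) : TP u X t - TP u X (t - c) =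
    (∑ p ∈ Prm X, wd u c p * (p : ℂ) ^ (-(t : ℂ) * I)).re := by
  unfold TP
  rw [← Finset.sum_sub_distrib, Complex.re_sum]
  refine Finset.sum_congr rfl fun p hp => ?_
  rw [mem_Prm'] at hp
  rw [cpow_eq (by omega)]
  have h1 : wd u c p * cexp ((-(t * Real.log p) : ℝ) * I) =
      (u p : ℂ) * (cexp ((-(t * Real.log p) : ℝ) * I) -
        cexp ((-((t - c) * Real.log p) : ℝ) * I)) := by
    unfold wd
    have h2 : cexp ((-((t - c) * Real.log p) : ℝ) * I) =
        cexp ((c * Real.log p : ℝ) * I) * cexp ((-(t * Real.log p) : ℝ) * I) := by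
      rw [← Complex.exp_add]
      congr 1
      push_cast
      ring
    rw [h2]; ring
  rw [h1, Complex.re_ofReal_mul, Complex.sub_re, Complex.exp_ofReal_mul_I_re,
    Complex.exp_ofReal_mul_I_re, Real.cos_neg, Real.cos_neg]
  ring

lemma diff_sq {u : ℕ → ℝ} {K : ℝ} (hK : 0 < K) (hu : ∀ p, |u p| ≤ K) (X : ℕ) (A B c : ℝ)
    (hAB : A ≤ B) :
    (B - A) * (∑ p ∈ Prm X, u p ^ 2 - ∑ p ∈ Prm X, u p ^ 2 * Real.cos (c * Real.log p)) -
      16 * K ^ 2 * (X : ℝ) ^ 3 ≤ ∫ t in A..B, (TP u X t - TP u X (t - c)) ^ 2 := by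
  have i1 := abs_le.1 (corr hK hu X A B 0 0 hAB)
  have i2 := abs_le.1 (corr hK hu X A B 0 (-c) hAB)
  have i3 := abs_le.1 (corr hK hu X A B (-c) (-c) hAB)
  simp only [add_zero, sub_self, zero_mul, Real.cos_zero, mul_one, sub_neg_eq_add, zero_add] at i1 i2
  have e3 : -c + c = 0 := by ring
  simp only [sub_neg_eq_add, e3, zero_mul, Real.cos_zero, mul_one] at i3
  have hc := TP_cont u X
  have e : (∫ t in A..B, (TP u X t - TP u X (t - c)) ^ 2) =
      (∫ t in A..B, TP u X t * TP u X t) - 2 * (∫ t in A..B, TP u X t * TP u X (t + -c)) +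
      (∫ t in A..B, TP u X (t + -c) * TP u X (t + -c)) := by
    rw [← intervalIntegral.integral_const_mul, ← intervalIntegral.integral_sub,
      ← intervalIntegral.integral_add]
    · refine intervalIntegral.integral_congr fun t _ => ?_
      show (TP u X t - TP u X (t - c)) ^ 2 = _
      rw [← sub_eq_add_neg]; ring
    all_goals exact Continuous.intervalIntegrable (by fun_prop) _ _
  rw [e]
  nlinarith [i1.1, i1.2, i2.1, i2.2, i3.1, i3.2]

lemma pw {x l : ℝ} (hx : 0 ≤ x) (hl : 0 < l) : x ^ 2 ≤ l * x + x ^ 4 / l ^ 2 := by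
  rcases le_total x l with h | h
  · have : 0 ≤ x ^ 4 / l ^ 2 := by positivity
    nlinarith
  · have h1 : x ^ 2 ≤ x ^ 4 / l ^ 2 := by
      rw [le_div_iff₀ (by positivity)]
      have : l ^ 2 ≤ x ^ 2 := pow_le_pow_left₀ hl.le h 2
      nlinarith [sq_nonneg x]
    nlinarith

theorem t_LARGE : S_VAR → S_TWV → S_LOWV → S_M4 → S_LARGE := by
  intro hVAR hTWV hLOWV hM4 j C0 D β hK hD τ hτ hτ1
  obtain ⟨C4, T4, hC4, hM4⟩ := hM4
  have hβ0 : 0 < β 0 := by
    rw [hK.zero]
    have := Real.pi_pos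
    positivity
  obtain ⟨cl, Cl, hcl, hCl, hV⟩ := hLOWV β hK.cont hβ0
  have hD0 : 0 ≤ D := (abs_nonneg _).trans (hD 0)
  set K0 : ℝ := 4 * D + 1 with hK0
  have hK0p : 0 < K0 := by positivity
  refine ⟨Real.sqrt (cl / 2) / (256 * Real.sqrt C4), max 1 (Real.exp (2 * Cl / cl)), ?_,
    le_max_left _ _, ?_⟩
  · have h1 : 0 < Real.sqrt (cl / 2) := Real.sqrt_pos.2 (by positivity)
    have h2 : 0 < Real.sqrt C4 := Real.sqrt_pos.2 hC4
    positivity
  intro N hN c hc
  have hN1 : 1 ≤ N := (le_max_left _ _).trans hN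
  have hlogN : 2 * Cl / cl ≤ Real.log N := by
    have h1 : Real.exp (2 * Cl / cl) ≤ N := (le_max_right _ _).trans hN
    have := Real.log_le_log (Real.exp_pos _) h1
    rwa [Real.log_exp] at this
  set V := VN β N with hVd
  have hVlow : cl / 2 * Real.log N ≤ V := by
    have h1 := (hV N hN1).1
    have h2 : 2 * Cl ≤ Real.log N * cl := by rwa [div_le_iff₀ hcl] at hlogN
    nlinarith
  have hlogN0 : 0 < Real.log N := lt_of_lt_of_le (by positivity) hlogN
  have hVpos : 0 < V := lt_of_lt_of_le (by positivity) hVlow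
  have hat := a_tendsto hτ
  have ev1 : ∀ᶠ T : ℝ in atTop, |(∑ p ∈ Prm ⌊Real.exp (τ * Real.log T)⌋₊,
      up β N (τ * Real.log T) p ^ 2) - V| < V / 8 :=
    ((hVAR β hK.cont hK.supp N hN1).comp hat).eventually
      (Metric.eventually_nhds_iff.2 ⟨V / 8, by positivity, fun y hy => by
        rwa [Real.dist_eq] at hy⟩)
  have ev2 : ∀ᶠ T : ℝ in atTop, |∑ p ∈ Prm ⌊Real.exp (τ * Real.log T)⌋₊,
      up β N (τ * Real.log T) p ^ 2 * Real.cos (c * Real.log p)| < V / 8 :=
    ((hTWV β hK.cont hK.supp N c hN1 hc).comp hat).eventually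
      (Metric.eventually_nhds_iff.2 ⟨V / 8, by positivity, fun y hy => by
        rwa [Real.dist_eq, sub_zero] at hy⟩)
  filter_upwards [ev1, ev2, eventually_ge_atTop T4, eventually_ge_atTop (1 : ℝ),
    sqrt_small (M := 16 * K0 ^ 2) (show (0 : ℝ) < V / 16 by positivity),
    log_small (M := 4) (show (0 : ℝ) < 1 / 2 by norm_num)] with T h1 h2 hT4 hT1 h3 h4
  simp only [Qs_eq]
  set a := τ * Real.log T with ha
  set X := ⌊Real.exp a⌋₊ with hX
  set u := up β N a with hu
  set S0 := ∑ p ∈ Prm X, u p ^ 2 with hS0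
  set Sc := ∑ p ∈ Prm X, u p ^ 2 * Real.cos (c * Real.log p) with hSc
  have hub : ∀ p, |u p| ≤ K0 := fun p => (up_bd hD N a p).trans (by rw [hK0]; linarith)
  have hlogT : 0 ≤ Real.log T := Real.log_nonneg hT1
  set A := T + 2 * Real.log T with hA
  set B := 2 * T - 2 * Real.log T with hB
  have hBA : B - A = T - 4 * Real.log T := by rw [hA, hB]; ring
  have hBA1 : T / 2 ≤ B - A := by rw [hBA]; linarith
  have hBA2 : B - A ≤ T := by rw [hBA]; linarith
  have hAB : A ≤ B := by linarith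
  have hX8 : (X : ℝ) ^ 8 ≤ T := by
    refine (X_bd hτ hτ1 hT1).trans ?_
    rw [Real.sqrt_le_left (by linarith)]
    nlinarith
  have hX3 : (X : ℝ) ^ 3 ≤ Real.sqrt T := X3_bd hτ hτ1 hT1
  -- second moment
  have m2 := diff_sq hK0p hub X A B c hAB
  have h1' := abs_lt.1 h1
  have h2' := abs_lt.1 h2
  have m2' : 5 / 16 * (T * V) ≤ ∫ t in A..B, (TP u X t - TP u X (t - c)) ^ 2 := by
    refine le_trans ?_ m2
    have h5 : 3 / 4 * V ≤ S0 - Sc := by linarith
    have h6 : T / 2 * (3 / 4 * V) ≤ (B - A) * (S0 - Sc) :=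
      mul_le_mul hBA1 h5 (by positivity) (by linarith)
    have h7 : 16 * K0 ^ 2 * (X : ℝ) ^ 3 ≤ V / 16 * T :=
      le_trans (mul_le_mul_of_nonneg_left hX3 (by positivity)) h3
    linarith
  -- fourth moment
  have m4 : ∫ t in A..B, |TP u X t - TP u X (t - c)| ^ 4 ≤ 25 * C4 * T * V ^ 2 := by
    have h5 : ∫ t in A..B, |TP u X t - TP u X (t - c)| ^ 4 ≤
        ∫ t in A..B, ‖∑ p ∈ Prm X, wd u c p * (p : ℂ) ^ (-(t : ℂ) * I)‖ ^ 4 := by
      apply intervalIntegral.integral_mono_on hAB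
      · have hc := TP_cont u X
        exact Continuous.intervalIntegrable (by fun_prop) _ _
      · apply Continuous.intervalIntegrable
        refine (Continuous.norm ?_).pow 4
        refine continuous_finsetSum _ fun p hp => ?_
        have hp0 : (p : ℂ) ≠ 0 := by
          rw [mem_Prm'] at hp
          exact_mod_cast (show p ≠ 0 by omega)
        exact continuous_const.mul (Continuous.const_cpow (by fun_prop) (Or.inl hp0))
      · intro t _
        rw [diff_eq]
        exact pow_le_pow_left₀ (abs_nonneg _) (Complex.abs_re_le_norm _) 4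
    have h6 := hM4 T hT4 X hX8 (wd u c) A B hAB hBA2
    have h7 : ∑ p ∈ Prm X, ‖wd u c p‖ ^ 2 ≤ 9 / 2 * V := by
      calc ∑ p ∈ Prm X, ‖wd u c p‖ ^ 2 ≤ ∑ p ∈ Prm X, 4 * u p ^ 2 := by
            refine Finset.sum_le_sum fun p _ => ?_
            calc ‖wd u c p‖ ^ 2 ≤ (2 * |u p|) ^ 2 := pow_le_pow_left₀ (norm_nonneg _) (wd_norm u c p) 2
              _ = 4 * u p ^ 2 := by rw [mul_pow, sq_abs]; norm_num
        _ = 4 * S0 := by rw [← Finset.mul_sum]
        _ ≤ 9 / 2 * V := by linarith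
    have h8 : (∑ p ∈ Prm X, ‖wd u c p‖ ^ 2) ^ 2 ≤ (9 / 2 * V) ^ 2 :=
      pow_le_pow_left₀ (Finset.sum_nonneg fun _ _ => sq_nonneg _) h7 2
    refine h5.trans (h6.trans ?_)
    calc C4 * T * (∑ p ∈ Prm X, ‖wd u c p‖ ^ 2) ^ 2 ≤ C4 * T * (9 / 2 * V) ^ 2 := by gcongr
      _ ≤ 25 * C4 * T * V ^ 2 := by nlinarith [mul_pos (mul_pos hC4 (by linarith : 0 < T)) (pow_pos hVpos 2)]
  -- combination
  have hsC : 0 < Real.sqrt C4 := Real.sqrt_pos.2 hC4
  have hsV : 0 < Real.sqrt V := Real.sqrt_pos.2 hVpos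
  set l : ℝ := 16 * (Real.sqrt C4 * Real.sqrt V) with hl
  have hlpos : 0 < l := by positivity
  have hl2 : l ^ 2 = 256 * (C4 * V) := by
    rw [hl, mul_pow, mul_pow, Real.sq_sqrt hC4.le, Real.sq_sqrt hVpos.le]; norm_num
  have hcomb : ∫ t in A..B, (TP u X t - TP u X (t - c)) ^ 2 ≤
      l * (∫ t in A..B, |TP u X t - TP u X (t - c)|) +
        (∫ t in A..B, |TP u X t - TP u X (t - c)| ^ 4) / l ^ 2 := by
    rw [← intervalIntegral.integral_const_mul, ← intervalIntegral.integral_div,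
      ← intervalIntegral.integral_add]
    · apply intervalIntegral.integral_mono_on hAB
      · have hc := TP_cont u X
        exact Continuous.intervalIntegrable (by fun_prop) _ _
      · have hc := TP_cont u X
        exact Continuous.intervalIntegrable (by fun_prop) _ _
      · intro t _
        have := pw (abs_nonneg (TP u X t - TP u X (t - c))) hlpos
        rwa [sq_abs] at this
    all_goals
      have hc := TP_cont u X
      exact Continuous.intervalIntegrable (by fun_prop) _ _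
  have h9 : (∫ t in A..B, |TP u X t - TP u X (t - c)| ^ 4) / l ^ 2 ≤ 25 / 256 * (T * V) := by
    rw [div_le_iff₀ (by positivity), hl2]
    refine m4.trans (le_of_eq ?_)
    ring
  have h10 : 1 / 8 * (T * V) ≤ l * ∫ t in A..B, |TP u X t - TP u X (t - c)| := by
    have : 0 < T * V := by positivity
    linarith
  have h11 : T * Real.sqrt V / (256 * Real.sqrt C4) ≤
      ∫ t in A..B, |TP u X t - TP u X (t - c)| := by
    rw [div_le_iff₀ (by positivity)]
    have h12 : T * V = T * Real.sqrt V * Real.sqrt V := by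
      rw [mul_assoc, Real.mul_self_sqrt hVpos.le]
    rw [h12, hl] at h10
    have h13 : 1 / 8 * (T * Real.sqrt V) ≤ 16 * Real.sqrt C4 *
        ∫ t in A..B, |TP u X t - TP u X (t - c)| := by
      have h14 : 1 / 8 * (T * Real.sqrt V) * Real.sqrt V ≤ (16 * Real.sqrt C4 *
        ∫ t in A..B, |TP u X t - TP u X (t - c)|) * Real.sqrt V := by
        calc _ = 1 / 8 * (T * Real.sqrt V * Real.sqrt V) := by ring
          _ ≤ _ := h10
          _ = _ := by ring
      exact le_of_mul_le_mul_right h14 hsV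
    have h15 : 0 ≤ ∫ t in A..B, |TP u X t - TP u X (t - c)| :=
      intervalIntegral.integral_nonneg hAB fun t _ => abs_nonneg _
    nlinarith [mul_nonneg hsC.le h15]
  have h16 : Real.sqrt (cl / 2) * Real.sqrt (Real.log N) ≤ Real.sqrt V := by
    rw [← Real.sqrt_mul (by positivity)]
    exact Real.sqrt_le_sqrt hVlow
  calc Real.sqrt (cl / 2) / (256 * Real.sqrt C4) * Real.sqrt (Real.log N) * T =
      T * (Real.sqrt (cl / 2) * Real.sqrt (Real.log N)) / (256 * Real.sqrt C4) := by ring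
    _ ≤ T * Real.sqrt V / (256 * Real.sqrt C4) := by
        apply div_le_div_of_nonneg_right _ (by positivity)
        exact mul_le_mul_of_nonneg_left h16 (by linarith)
    _ ≤ _ := h11

end

end Pool.Agent.V8H86.OR
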