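import Pool.Agent.V8Lead.OR.Stm
import Pool.Agent.Y840.SW.MVB

set_option autoImplicit false

/-!
Project OR (helper86): the fourth moment of a prime polynomial.
-/

namespace Pool.Agent.V8H86.OR

open Filter Topology MeasureTheory Complex H370
open Pool.Agent.Y745.SW
open Pool.Agent.V8Lead.OR

noncomputable section

/-- the coefficients of the square of a prime polynomial -/
def sqc (w : ℕ → ℂ) (X n : ℕ) : ℂ :=
  ∑ x ∈ (Prm X ×ˢ Prm X).filter (fun x => x.1 * x.2 = n), w x.1 * w x.2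

lemma mem_Prm' {X p : ℕ} : p ∈ Prm X ↔ 1 ≤ p ∧ p ≤ X ∧ p.Prime := by
  unfold Prm
  rw [Finset.mem_filter, Finset.mem_Icc]
  tauto

lemma prm_maps {X : ℕ} : ∀ x ∈ Prm X ×ˢ Prm X, x.1 * x.2 ∈ Finset.Icc 1 (X ^ 2) := by
  intro x hx
  rw [Finset.mem_product] at hx
  obtain ⟨h1, h2⟩ := hx
  rw [mem_Prm'] at h1 h2
  rw [Finset.mem_Icc, pow_two]
  exact ⟨Nat.mul_pos h1.1 h2.1, Nat.mul_le_mul h1.2.1 h2.2.1⟩

lemma sq_eq (w : ℕ → ℂ) (X : ℕ) (t : ℝ) : (∑ p ∈ Prm X, w p * (p : ℂ) ^ (-(t : ℂ) * I)) ^ 2 =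
    ∑ n ∈ Finset.Icc 1 (X ^ 2), sqc w X n * (n : ℂ) ^ (-(t : ℂ) * I) := by
  rw [pow_two, Finset.sum_mul_sum, ← Finset.sum_product',
    ← Finset.sum_fiberwise_of_maps_to prm_maps]
  refine Finset.sum_congr rfl fun n _ => ?_
  unfold sqc
  rw [Finset.sum_mul]
  refine Finset.sum_congr rfl fun x hx => ?_
  rw [Finset.mem_filter] at hx
  rw [← hx.2, Nat.cast_mul, Complex.natCast_mul_natCast_cpow]
  ring

lemma card_le_two' (X n : ℕ) : ((Prm X ×ˢ Prm X).filter (fun x => x.1 * x.2 = n)).card ≤ 2 := by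
  rcases Finset.eq_empty_or_nonempty ((Prm X ×ˢ Prm X).filter (fun x => x.1 * x.2 = n)) with h | h
  · rw [h]; simp
  · obtain ⟨⟨p, q⟩, hpq⟩ := h
    have hsub : (Prm X ×ˢ Prm X).filter (fun x => x.1 * x.2 = n) ⊆ {(p, q), (q, p)} := by
      rintro ⟨p', q'⟩ h'
      simp only [Finset.mem_filter, Finset.mem_product, mem_Prm'] at hpq h'
      obtain ⟨⟨⟨_, _, hp⟩, _, _, hq⟩, h1⟩ := hpq
      obtain ⟨⟨⟨_, _, hp'⟩, _, _, hq'⟩, h2⟩ := h'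
      have h3 : p' ∣ p * q := by rw [h1, ← h2]; exact Nat.dvd_mul_right _ _
      simp only [Finset.mem_insert, Finset.mem_singleton, Prod.mk.injEq]
      rcases (Nat.Prime.dvd_mul hp').1 h3 with h4 | h4
      · have h5 : p' = p := (Nat.prime_dvd_prime_iff_eq hp' hp).1 h4
        left
        refine ⟨h5, ?_⟩
        rw [h5, ← h1] at h2
        exact Nat.eq_of_mul_eq_mul_left hp.pos h2
      · have h5 : p' = q := (Nat.prime_dvd_prime_iff_eq hp' hq).1 h4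
        right
        refine ⟨h5, ?_⟩
        rw [h5, ← h1, mul_comm p q] at h2
        exact Nat.eq_of_mul_eq_mul_left hq.pos h2
    exact (Finset.card_le_card hsub).trans Finset.card_le_two

lemma sum_sqc (w : ℕ → ℂ) (X : ℕ) : ∑ n ∈ Finset.Icc 1 (X ^ 2), ‖sqc w X n‖ ^ 2 ≤
    2 * (∑ p ∈ Prm X, ‖w p‖ ^ 2) ^ 2 := by
  have h1 : (∑ p ∈ Prm X, ‖w p‖ ^ 2) ^ 2 = ∑ n ∈ Finset.Icc 1 (X ^ 2),
      ∑ x ∈ (Prm X ×ˢ Prm X).filter (fun x => x.1 * x.2 = n), (‖w x.1‖ * ‖w x.2‖) ^ 2 := by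
    rw [pow_two, Finset.sum_mul_sum, ← Finset.sum_product',
      ← Finset.sum_fiberwise_of_maps_to prm_maps]
    refine Finset.sum_congr rfl fun n _ => Finset.sum_congr rfl fun x _ => ?_
    ring
  rw [h1, Finset.mul_sum]
  refine Finset.sum_le_sum fun n _ => ?_
  unfold sqc
  calc ‖∑ x ∈ (Prm X ×ˢ Prm X).filter (fun x => x.1 * x.2 = n), w x.1 * w x.2‖ ^ 2 ≤
      (∑ x ∈ (Prm X ×ˢ Prm X).filter (fun x => x.1 * x.2 = n), ‖w x.1‖ * ‖w x.2‖) ^ 2 := by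
        refine pow_le_pow_left₀ (norm_nonneg _) ?_ 2
        refine (norm_sum_le _ _).trans (Finset.sum_le_sum fun x _ => ?_)
        rw [norm_mul]
    _ ≤ (((Prm X ×ˢ Prm X).filter (fun x => x.1 * x.2 = n)).card : ℝ) *
        ∑ x ∈ (Prm X ×ˢ Prm X).filter (fun x => x.1 * x.2 = n), (‖w x.1‖ * ‖w x.2‖) ^ 2 :=
        sq_sum_le_card_mul_sum_sq
    _ ≤ 2 * ∑ x ∈ (Prm X ×ˢ Prm X).filter (fun x => x.1 * x.2 = n), (‖w x.1‖ * ‖w x.2‖) ^ 2 := by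
        have h2 : (((Prm X ×ˢ Prm X).filter (fun x => x.1 * x.2 = n)).card : ℝ) ≤ 2 := by
          exact_mod_cast card_le_two' X n
        exact mul_le_mul_of_nonneg_right h2 (Finset.sum_nonneg fun _ _ => sq_nonneg _)

/-- mean square of a Dirichlet polynomial -/
lemma mean_sq (X : ℕ) (A B : ℝ) (hAB : A ≤ B) (a : ℕ → ℂ) :
    ∫ t in A..B, ‖∑ n ∈ Finset.Icc 1 X, a n * (n : ℂ) ^ (-(t : ℂ) * I)‖ ^ 2 ≤
      (B - A + 8 * X * (1 + Real.log X)) * ∑ n ∈ Finset.Icc 1 X, ‖a n‖ ^ 2 := by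
  have h := Pool.Agent.Y840.SW.t_MVB X A B hAB a a
  have e1 : (∫ t in A..B, (∑ n ∈ Finset.Icc 1 X, a n * (n : ℂ) ^ (-(t : ℂ) * I)) *
      (starRingEnd ℂ) (∑ n ∈ Finset.Icc 1 X, a n * (n : ℂ) ^ (-(t : ℂ) * I))) =
      ((∫ t in A..B, ‖∑ n ∈ Finset.Icc 1 X, a n * (n : ℂ) ^ (-(t : ℂ) * I)‖ ^ 2 : ℝ) : ℂ) := by
    rw [← intervalIntegral.integral_ofReal]
    refine intervalIntegral.integral_congr fun t _ => ?_
    show _ * (starRingEnd ℂ) _ = _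
    rw [Complex.mul_conj, Complex.normSq_eq_norm_sq]
  have e2 : ∑ n ∈ Finset.Icc 1 X, a n * (starRingEnd ℂ) (a n) =
      ((∑ n ∈ Finset.Icc 1 X, ‖a n‖ ^ 2 : ℝ) : ℂ) := by
    rw [Complex.ofReal_sum]
    refine Finset.sum_congr rfl fun n _ => ?_
    rw [Complex.mul_conj, Complex.normSq_eq_norm_sq]
  have hS : 0 ≤ ∑ n ∈ Finset.Icc 1 X, ‖a n‖ ^ 2 := Finset.sum_nonneg fun _ _ => sq_nonneg _
  rw [e1, e2, ← Complex.ofReal_mul, ← Complex.ofReal_sub, Complex.norm_real, Real.norm_eq_abs,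
    Real.mul_self_sqrt hS] at h
  have := (abs_le.1 h).2
  linarith

theorem t_M4 : S_M4 := by
  refine ⟨50, 1, by norm_num, ?_⟩
  intro T hT X hX w A B hAB hBT
  have h1 : ∀ t : ℝ, ‖∑ p ∈ Prm X, w p * (p : ℂ) ^ (-(t : ℂ) * I)‖ ^ 4 =
      ‖∑ n ∈ Finset.Icc 1 (X ^ 2), sqc w X n * (n : ℂ) ^ (-(t : ℂ) * I)‖ ^ 2 := by
    intro t
    rw [← sq_eq, norm_pow, ← pow_mul]
  simp_rw [h1]
  refine (mean_sq (X ^ 2) A B hAB _).trans ?_
  have hS : 0 ≤ ∑ n ∈ Finset.Icc 1 (X ^ 2), ‖sqc w X n‖ ^ 2 :=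
    Finset.sum_nonneg fun _ _ => sq_nonneg _
  have h2 : B - A + 8 * ((X ^ 2 : ℕ) : ℝ) * (1 + Real.log ((X ^ 2 : ℕ) : ℝ)) ≤ 25 * T := by
    rcases Nat.eq_zero_or_pos X with h0 | h0
    · subst h0
      simp
      linarith
    · have hX1 : (1 : ℝ) ≤ X := by exact_mod_cast h0
      have hlog : Real.log X ≤ X := (Real.log_le_sub_one_of_pos (by linarith)).trans (by linarith)
      have h3 : Real.log ((X ^ 2 : ℕ) : ℝ) = 2 * Real.log X := by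
        push_cast
        rw [Real.log_pow]; norm_num
      have h4 : (X : ℝ) ^ 3 ≤ T := (pow_le_pow_right₀ hX1 (by norm_num)).trans hX
      have h5 : 8 * ((X ^ 2 : ℕ) : ℝ) * (1 + Real.log ((X ^ 2 : ℕ) : ℝ)) ≤ 24 * (X : ℝ) ^ 3 := by
        rw [h3]
        push_cast
        have h6 : 1 + 2 * Real.log X ≤ 3 * X := by linarith
        calc 8 * (X : ℝ) ^ 2 * (1 + 2 * Real.log X) ≤ 8 * (X : ℝ) ^ 2 * (3 * X) := by gcongr
          _ = 24 * (X : ℝ) ^ 3 := by ring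
      linarith
  calc (B - A + 8 * ((X ^ 2 : ℕ) : ℝ) * (1 + Real.log ((X ^ 2 : ℕ) : ℝ))) *
        ∑ n ∈ Finset.Icc 1 (X ^ 2), ‖sqc w X n‖ ^ 2 ≤
      25 * T * ∑ n ∈ Finset.Icc 1 (X ^ 2), ‖sqc w X n‖ ^ 2 := mul_le_mul_of_nonneg_right h2 hS
    _ ≤ 25 * T * (2 * (∑ p ∈ Prm X, ‖w p‖ ^ 2) ^ 2) := by
      have := sum_sqc w X
      gcongr
    _ = 50 * T * (∑ p ∈ Prm X, ‖w p‖ ^ 2) ^ 2 := by ring

end

end Pool.Agent.V8H86.OR
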