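import Pool.Agent.V8H86.OR.M4
import Pool.Agent.Y474.AF.CR2

set_option autoImplicit false

/-!
Project OR (helper86): auxiliary lemmas on prime polynomials.
-/

namespace Pool.Agent.V8H86.OR

open Filter Topology MeasureTheory Complex H370
open Pool.Agent.Y745.SW
open Pool.Agent.V8Lead.OR
open Pool.Agent.Y248.SW (Ker BN)

noncomputable section

/-- trigonometric polynomials over the primes -/
def TP (u : ℕ → ℝ) (X : ℕ) (t : ℝ) : ℝ := ∑ p ∈ Prm X, u p * Real.cos (t * Real.log p)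

lemma TP_cont (u : ℕ → ℝ) (X : ℕ) : Continuous (TP u X) := by
  unfold TP
  fun_prop

lemma Qs_eq (β : ℝ → ℝ) (N a t : ℝ) : Qs β N a t = TP (up β N a) ⌊Real.exp a⌋₊ t := rfl

lemma up_bd {β : ℝ → ℝ} {D : ℝ} (hD : ∀ ξ, |β ξ| ≤ D) (N a : ℝ) (p : ℕ) :
    |up β N a p| ≤ 4 * D := by
  have hD0 : 0 ≤ D := (abs_nonneg _).trans (hD 0)
  unfold up
  rw [abs_mul, abs_mul]
  have h1 : |4 / Real.sqrt p| ≤ 4 := by
    rcases Nat.eq_zero_or_pos p with h | h
    · subst h; simp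
    · have h2 : (1 : ℝ) ≤ Real.sqrt p := by
        rw [Real.one_le_sqrt]
        exact_mod_cast h
      rw [abs_of_pos (by positivity), div_le_iff₀ (by linarith)]
      linarith
  calc |4 / Real.sqrt p| * |β (Real.log p / a)| * |Real.sin (N * Real.log p / a)| ≤
      4 * D * 1 := by
        refine mul_le_mul (mul_le_mul h1 (hD _) (abs_nonneg _) (by norm_num))
          (Real.abs_sin_le_one _) (abs_nonneg _) (by positivity)
    _ = 4 * D := by ring

/-- correlations -/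
lemma corr {u : ℕ → ℝ} {K : ℝ} (hK : 0 < K) (hu : ∀ p, |u p| ≤ K) (X : ℕ) (A B b d : ℝ)
    (hAB : A ≤ B) :
    |(∫ t in A..B, TP u X (t + b) * TP u X (t + d)) -
      (B - A) / 2 * ∑ p ∈ Prm X, u p ^ 2 * Real.cos ((b - d) * Real.log p)| ≤
      4 * K ^ 2 * (X : ℝ) ^ 3 := by
  have hv : ∀ p, |u p / K| ≤ 1 := by
    intro p
    rw [abs_div, abs_of_pos hK, div_le_one hK]
    exact hu p
  have h := Pool.Agent.Y474.CR2.cr2 X (fun p => u p / K) (fun p => u p / K) hv hv A B b d hAB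
  have e1 : (∫ t in A..B, TP u X (t + b) * TP u X (t + d)) = K ^ 2 *
      ∫ t in A..B, (∑ p ∈ Pool.Agent.Y743.AF.Prm X, u p / K * Real.cos ((t + b) * Real.log p)) *
        (∑ q ∈ Pool.Agent.Y743.AF.Prm X, u q / K * Real.cos ((t + d) * Real.log q)) := by
    rw [← intervalIntegral.integral_const_mul]
    refine intervalIntegral.integral_congr fun t _ => ?_
    have h1 : ∀ s : ℝ, TP u X s = K * ∑ p ∈ Pool.Agent.Y743.AF.Prm X,
        u p / K * Real.cos (s * Real.log p) := by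
      intro s
      unfold TP
      rw [Finset.mul_sum]
      refine Finset.sum_congr rfl fun p _ => ?_
      field_simp
    show TP u X (t + b) * TP u X (t + d) = _
    rw [h1, h1]; ring
  have e2 : ∑ p ∈ Prm X, u p ^ 2 * Real.cos ((b - d) * Real.log p) = K ^ 2 *
      ∑ p ∈ Pool.Agent.Y743.AF.Prm X, u p / K * (u p / K) * Real.cos ((b - d) * Real.log p) := by
    rw [Finset.mul_sum]
    refine Finset.sum_congr rfl fun p _ => ?_
    field_simp
  have e3 : (∫ t in A..B, TP u X (t + b) * TP u X (t + d)) -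
      (B - A) / 2 * ∑ p ∈ Prm X, u p ^ 2 * Real.cos ((b - d) * Real.log p) = K ^ 2 *
      ((∫ t in A..B, (∑ p ∈ Pool.Agent.Y743.AF.Prm X, u p / K * Real.cos ((t + b) * Real.log p)) *
        (∑ q ∈ Pool.Agent.Y743.AF.Prm X, u q / K * Real.cos ((t + d) * Real.log q))) -
        (B - A) / 2 * ∑ p ∈ Pool.Agent.Y743.AF.Prm X, u p / K * (u p / K) *
          Real.cos ((b - d) * Real.log p)) := by
    rw [e1, e2]; ring
  rw [e3, abs_mul, abs_of_pos (by positivity : 0 < K ^ 2)]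
  calc K ^ 2 * _ ≤ K ^ 2 * (4 * (X : ℝ) ^ 3) := mul_le_mul_of_nonneg_left h (by positivity)
    _ = _ := by ring

/-- `X = ⌊exp (τ log T)⌋` is small -/
lemma X_bd {τ T : ℝ} (hτ : 0 < τ) (hτ1 : τ ≤ 1 / 16) (hT : 1 ≤ T) :
    ((⌊Real.exp (τ * Real.log T)⌋₊ : ℕ) : ℝ) ^ 8 ≤ Real.sqrt T := by
  have hlog : 0 ≤ Real.log T := Real.log_nonneg hT
  have h1 : ((⌊Real.exp (τ * Real.log T)⌋₊ : ℕ) : ℝ) ≤ Real.exp (τ * Real.log T) :=
    Nat.floor_le (Real.exp_pos _).le
  calc ((⌊Real.exp (τ * Real.log T)⌋₊ : ℕ) : ℝ) ^ 8 ≤ Real.exp (τ * Real.log T) ^ 8 :=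
      pow_le_pow_left₀ (Nat.cast_nonneg _) h1 8
    _ = Real.exp (8 * (τ * Real.log T)) := by rw [← Real.exp_nat_mul]; norm_num
    _ ≤ Real.exp (Real.log T / 2) := by
        apply Real.exp_le_exp.2
        nlinarith
    _ = Real.sqrt T := by
        rw [Real.sqrt_eq_rpow, Real.rpow_def_of_pos (by linarith)]
        congr 1; ring

lemma X3_bd {τ T : ℝ} (hτ : 0 < τ) (hτ1 : τ ≤ 1 / 16) (hT : 1 ≤ T) :
    ((⌊Real.exp (τ * Real.log T)⌋₊ : ℕ) : ℝ) ^ 3 ≤ Real.sqrt T := by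
  refine le_trans ?_ (X_bd hτ hτ1 hT)
  rcases Nat.eq_zero_or_pos ⌊Real.exp (τ * Real.log T)⌋₊ with h | h
  · rw [h]; simp
  · exact pow_le_pow_right₀ (by exact_mod_cast h) (by norm_num)

lemma a_tendsto {τ : ℝ} (hτ : 0 < τ) : Tendsto (fun T : ℝ => τ * Real.log T) atTop atTop :=
  Real.tendsto_log_atTop.const_mul_atTop hτ

/-- `√T` is small compared with `T` -/
lemma sqrt_small {M η : ℝ} (hη : 0 < η) : ∀ᶠ T : ℝ in atTop, M * Real.sqrt T ≤ η * T := by
  have h1 : Tendsto (fun T : ℝ => Real.sqrt T) atTop atTop := by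
    have := tendsto_rpow_atTop (show (0 : ℝ) < 1 / 2 by norm_num)
    refine this.congr fun T => (Real.sqrt_eq_rpow T).symm
  filter_upwards [h1.eventually_ge_atTop (M / η), eventually_ge_atTop (0 : ℝ)] with T hT hT0
  rw [div_le_iff₀ hη] at hT
  calc M * Real.sqrt T ≤ (Real.sqrt T * η) * Real.sqrt T :=
        mul_le_mul_of_nonneg_right hT (Real.sqrt_nonneg _)
    _ = η * (Real.sqrt T * Real.sqrt T) := by ring
    _ = η * T := by rw [Real.mul_self_sqrt hT0]

lemma log_small {M η : ℝ} (hη : 0 < η) : ∀ᶠ T : ℝ in atTop, M * Real.log T ≤ η * T := by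
  have h1 : (fun T : ℝ => Real.log T) =o[atTop] (fun T : ℝ => T) := Real.isLittleO_log_id_atTop
  have h2 := h1.def (show (0 : ℝ) < η / (|M| + 1) by positivity)
  filter_upwards [h2, eventually_ge_atTop (1 : ℝ)] with T hT hT1
  rw [Real.norm_eq_abs, Real.norm_eq_abs, abs_of_nonneg (Real.log_nonneg hT1),
    abs_of_nonneg (show (0 : ℝ) ≤ T by linarith)] at hT
  have h3 : 0 ≤ Real.log T := Real.log_nonneg hT1
  calc M * Real.log T ≤ (|M| + 1) * Real.log T := by
        apply mul_le_mul_of_nonneg_right _ h3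
        linarith [le_abs_self M]
    _ ≤ (|M| + 1) * (η / (|M| + 1) * T) := by
        apply mul_le_mul_of_nonneg_left hT (by positivity)
    _ = η * T := by field_simp

/-- Chebyshev's inequality -/
lemma cheb {f : ℝ → ℝ} (hf : Continuous f) (h0 : ∀ t, 0 ≤ f t) {A B c : ℝ} (hAB : A ≤ B)
    (hc : 0 < c) : volume.real {t : ℝ | A ≤ t ∧ t ≤ B ∧ c ≤ f t} ≤ (∫ t in A..B, f t) / c := by
  have h1 : Integrable f (volume.restrict (Set.Icc A B)) :=
    (hf.continuousOn.integrableOn_Icc)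
  have h2 := mul_meas_ge_le_integral_of_nonneg (μ := volume.restrict (Set.Icc A B))
    (Eventually.of_forall h0) h1 c
  have h3 : (volume.restrict (Set.Icc A B)).real {x | c ≤ f x} =
      volume.real {t : ℝ | A ≤ t ∧ t ≤ B ∧ c ≤ f t} := by
    rw [measureReal_restrict_apply (measurableSet_le measurable_const hf.measurable)]
    congr 1
    ext t
    simp only [Set.mem_inter_iff, Set.mem_ofPred_eq, Set.mem_Icc]
    tauto
  rw [h3, integral_Icc_eq_integral_Ioc, ← intervalIntegral.integral_of_le hAB] at h2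
  rw [le_div_iff₀ hc, mul_comm]
  exact h2

end

end Pool.Agent.V8H86.OR
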