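import Pool.Agent.V8Lead.OR.Stm2

set_option autoImplicit false

/-!
Project OR (helper86): the two ways to count zeros.
-/

namespace Pool.Agent.V8H86.OR

open Filter Topology MeasureTheory Complex
open Pool.Agent.V8Lead.OR
open SG (NZ ord ZS ZS_finite)

noncomputable section

lemma NZ_sub {t1 t2 : ℝ} (h0 : 0 ≤ t1) (h : t1 ≤ t2) :
    (NZ t2 : ℝ) - NZ t1 = (H370.NN riemannZeta t1 t2 : ℝ) := by
  have h1 : ZS t2 = ZS t1 ∪ H370.zset riemannZeta t1 t2 := by
    ext s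
    simp only [ZS, H370.zset, Set.mem_union, Set.mem_ofPred_eq]
    constructor
    · rintro ⟨a1, a2, a3, a4, a5⟩
      by_cases hs : s.im ≤ t1
      · exact Or.inl ⟨a1, a2, a3, a4, hs⟩
      · exact Or.inr ⟨a2, a3, not_le.1 hs, a5, a1⟩
    · rintro (⟨a1, a2, a3, a4, a5⟩ | ⟨a2, a3, a4, a5, a1⟩)
      · exact ⟨a1, a2, a3, a4, a5.trans h⟩
      · exact ⟨a1, a2, a3, lt_of_le_of_lt h0 a4, a5⟩
  have h2 : Disjoint (ZS t1) (H370.zset riemannZeta t1 t2) := by
    rw [Set.disjoint_left]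
    rintro s hs hs'
    exact absurd hs.2.2.2.2 (not_le.2 hs'.2.2.1)
  have h3 : (H370.zset riemannZeta t1 t2).Finite :=
    (ZS_finite t2).subset (by rw [h1]; exact Set.subset_union_right)
  have h4 : NZ t2 = NZ t1 + H370.NN riemannZeta t1 t2 := by
    have e1 : NZ t2 = ∑ᶠ s ∈ ZS t2, SG.zmult s := rfl
    have e2 : NZ t1 = ∑ᶠ s ∈ ZS t1, SG.zmult s := rfl
    have e3 : H370.NN riemannZeta t1 t2 = ∑ᶠ s ∈ H370.zset riemannZeta t1 t2, SG.zmult s := rfl
    rw [e1, e2, e3, h1, finsum_mem_union h2 (ZS_finite t1) h3]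
  rw [h4]
  push_cast
  ring

lemma Wc_eq {T s t : ℝ} (hT : 1 < T) (hs : 0 ≤ s) (ht : 0 ≤ t) :
    Wc T s t = Wn (Real.pi * s / Real.log T) (t + Real.pi * s / Real.log T) := by
  have hlog : 0 < Real.log T := Real.log_pos hT
  have hr : 0 ≤ Real.pi * s / Real.log T := by
    have := Real.pi_pos
    positivity
  unfold Wc Wn
  rw [NZ_sub ht (by have : 2 * Real.pi * s / Real.log T = 2 * (Real.pi * s / Real.log T) := by ring
                    rw [this]; linarith)]
  congr 2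
  · ring
  · ring

end

end Pool.Agent.V8H86.OR
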