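import Pool.Agent.V8H86.OR.Acm
import Pool.Agent.V8H86.OR.Wnc
import Pool.Agent.Y248.SW.KER

set_option autoImplicit false

/-!
Project OR (helper86): linear combinations of the window counts at fixed shifts are rarely near the expected
value.
-/

namespace Pool.Agent.V8H86.OR

open Filter Topology MeasureTheory Complex
open Pool.Agent.Y745.SW
open Pool.Agent.V8Lead.OR
open Pool.Agent.Y248.SW (Ker BN)
open SG (NZ ord)

noncomputable section

/-- Chebyshev's inequality -/
lemma cheb' {f : ℝ → ℝ} (hf : Measurable f) (h0 : ∀ t, 0 ≤ f t) {A B c : ℝ} (hAB : A ≤ B)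
    (hi : IntervalIntegrable f volume A B) (hc : 0 < c) :
    volume.real {t : ℝ | A ≤ t ∧ t ≤ B ∧ c ≤ f t} ≤ (∫ t in A..B, f t) / c := by
  have h1 : Integrable f (volume.restrict (Set.Icc A B)) :=
    (intervalIntegrable_iff_integrableOn_Icc_of_le hAB).1 hi
  have h2 := mul_meas_ge_le_integral_of_nonneg (μ := volume.restrict (Set.Icc A B))
    (Eventually.of_forall h0) h1 c
  have h3 : (volume.restrict (Set.Icc A B)).real {x | c ≤ f x} =
      volume.real {t : ℝ | A ≤ t ∧ t ≤ B ∧ c ≤ f t} := by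
    rw [measureReal_restrict_apply (measurableSet_le measurable_const hf)]
    congr 1
    ext t
    simp only [Set.mem_inter_iff, Set.mem_ofPred_eq, Set.mem_Icc]
    tauto
  rw [h3, integral_Icc_eq_integral_Ioc, ← intervalIntegral.integral_of_le hAB] at h2
  rw [le_div_iff₀ hc, mul_comm]
  exact h2

/-- the number of zeros in a window, for all `t` -/
def Wz (r t : ℝ) : ℝ := (NZ (t + r) : ℝ) - NZ (t - r)

lemma NZ_mono' : Monotone (fun t => (NZ t : ℝ)) := fun _ _ h => Nat.cast_le.2 (SG.NZ_mono h)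

lemma Wz_meas (r : ℝ) : Measurable (Wz r) := by
  unfold Wz
  exact (NZ_mono'.measurable.comp (measurable_id.add_const r)).sub
    (NZ_mono'.measurable.comp (measurable_id.sub_const r))

lemma Wz_ii (r A B : ℝ) : IntervalIntegrable (Wz r) volume A B := by
  unfold Wz
  have h1 : Monotone (fun t : ℝ => (NZ (t + r) : ℝ)) := fun a b h => NZ_mono' (by linarith)
  have h2 : Monotone (fun t : ℝ => (NZ (t - r) : ℝ)) := fun a b h => NZ_mono' (by linarith)
  exact h1.intervalIntegrable.sub h2.intervalIntegrable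

lemma Wn_eq {r t : ℝ} (hr : 0 ≤ r) (ht : r ≤ t) : Wn r t = Wz r t := by
  unfold Wn Wz
  rw [← NZ_sub (by linarith) (by linarith)]

lemma real_preimage_add (S : Set ℝ) (d : ℝ) : volume.real {t : ℝ | t + d ∈ S} = volume.real S := by
  unfold Measure.real
  congr 1
  exact measure_preimage_add_right volume d S

theorem t_WM : S_CORE → S_ACQM → S_WM := by
  intro hCORE hACQM k b c hcinj hb Y ε hY hε
  obtain ⟨C0, β, D, hK, hD⟩ := Pool.Agent.Y248.SW.exists_ker 4
  obtain ⟨τ, hτ0, hτ1, hτ2⟩ := hCORE C0 D β hK hD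
  obtain ⟨C1, hC1, hcore⟩ := hτ2 τ hτ0 le_rfl
  have hπ := Real.pi_pos
  set B1 : ℝ := ∑ i, |b i| with hB1
  have hB1n : 0 ≤ B1 := Finset.sum_nonneg fun i _ => abs_nonneg _
  set M : ℝ := ∑ i, |c i| with hM
  have hMn : 0 ≤ M := Finset.sum_nonneg fun i _ => abs_nonneg _
  have hcM : ∀ i, |c i| ≤ M := fun i =>
    Finset.single_le_sum (f := fun i => |c i|) (fun i _ => abs_nonneg _) (Finset.mem_univ i)
  set E : ℝ := 4 * (k + 1) * C1 / ε with hE
  have hE0 : 0 < E := by positivity
  obtain ⟨N0, hN0, hacq⟩ := hACQM 4 C0 D β hK hD τ hτ0 hτ1 k b c hcinj hb (Y + B1 * E) (ε / 4)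
    (by positivity) (by positivity)
  refine ⟨max 1 (N0 / (Real.pi * τ)), le_max_left _ _, ?_⟩
  intro s hs
  have hs1 : 1 ≤ s := (le_max_left _ _).trans hs
  have hs2 : N0 / (Real.pi * τ) ≤ s := (le_max_right _ _).trans hs
  rw [div_le_iff₀ (by positivity)] at hs2
  set N : ℝ := s * (Real.pi * τ) with hN
  have hN1 : 1 ≤ N := hN0.trans hs2
  have hNs : N / (Real.pi * τ) = s := by rw [hN]; field_simp
  obtain ⟨i0, hi0⟩ : ∃ i, b i ≠ 0 := by
    by_contra hcon
    push Not at hcon
    exact hb (funext hcon)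
  filter_upwards [hcore N hN1, hacq N hs2, eventually_ge_atTop (Real.exp 1),
    eventually_ge_atTop (Real.pi * s + M),
    Real.tendsto_log_atTop.eventually_ge_atTop M,
    log_small (M := 1) (show (0:ℝ) < 1 / 2 by norm_num),
    log_small (M := 2 + 2 * (Real.pi * s) + 2 * M) (show (0:ℝ) < ε / 4 by positivity)] with
      T h1 h2 hTe hTs hTM hT2 hT3
  have hT1 : 1 < T := lt_of_lt_of_le (by have := Real.add_one_lt_exp (x := 1) one_ne_zero; linarith) hTe
  have hlog1 : 1 ≤ Real.log T := by
    rw [← Real.log_exp 1]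
    exact Real.log_le_log (Real.exp_pos _) hTe
  have hlog0 : 0 < Real.log T := by linarith
  set a := τ * Real.log T with ha
  set r := Real.pi * s / Real.log T with hr
  have hra : N / a = r := by
    rw [hN, ha, hr]
    field_simp
  have hr0 : 0 ≤ r := by positivity
  have hrs : r ≤ Real.pi * s := div_le_self (by positivity) hlog1
  set A := T + Real.log T with hA
  set B := 2 * T - Real.log T with hB
  have hAB : A ≤ B := by rw [hA, hB]; linarith
  have hrA : r ≤ A := by rw [hA]; linarith
  rw [hra, hNs] at h1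
  -- the error
  set err : ℝ → ℝ := fun x => |Wz r x - s + Qs β N a x| with herr
  have herr0 : ∀ x, 0 ≤ err x := fun x => abs_nonneg _
  have hQc : Continuous (fun x => Qs β N a x) := by
    simp only [Qs_eq]
    exact TP_cont _ _
  have herrm : Measurable err := (((Wz_meas r).sub_const s).add hQc.measurable).abs
  have herri : IntervalIntegrable err volume A B :=
    (((Wz_ii r A B).sub intervalIntegrable_const).add (hQc.intervalIntegrable _ _)).abs
  have hint : ∫ x in A..B, err x ≤ C1 * T := by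
    refine le_trans (le_of_eq ?_) h1
    refine intervalIntegral.integral_congr fun x hx => ?_
    rw [Set.uIcc_of_le hAB] at hx
    show |Wz r x - s + Qs β N a x| = |Wn r x - s + Qs β N a x|
    rw [Wn_eq hr0 (hrA.trans hx.1)]
  have q2 := cheb' herrm herr0 hAB herri hE0
  have q2' : volume.real {x : ℝ | A ≤ x ∧ x ≤ B ∧ E ≤ err x} ≤ ε / (4 * (k + 1)) * T := by
    refine q2.trans ?_
    rw [div_le_iff₀ hE0]
    refine hint.trans (le_of_eq ?_)
    rw [hE]
    field_simp
  -- the three sets
  set S1 : Set ℝ := Set.Icc T (T + Real.log T + M) ∪ Set.Icc (2 * T - Real.log T - r - M) (2 * T) with hS1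
  set S2 : Fin k → Set ℝ := fun i => {t | t + (r + c i) ∈ {x : ℝ | A ≤ x ∧ x ≤ B ∧ E ≤ err x}} with hS2
  set S3 : Set ℝ := {t | t + r ∈ {x : ℝ | T ≤ x ∧ x ≤ 2 * T ∧
    |∑ i, b i * Qs β N a (x + c i)| ≤ Y + B1 * E}} with hS3
  have m1 : volume.real S1 ≤ ε / 4 * T := by
    have e1 : volume.real S1 ≤ (Real.log T + M) + (Real.log T + r + M) := by
      refine (measureReal_union_le _ _).trans (add_le_add ?_ ?_)
      · rw [Real.volume_real_Icc_of_le (by linarith)]
        linarith
      · rw [Real.volume_real_Icc_of_le (by linarith)]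
        linarith
    refine e1.trans (le_trans ?_ hT3)
    have e2 : Real.pi * s ≤ Real.pi * s * Real.log T := le_mul_of_one_le_right (by positivity) hlog1
    have e3 : M ≤ M * Real.log T := le_mul_of_one_le_right hMn hlog1
    nlinarith [mul_nonneg (mul_nonneg hπ.le (show (0:ℝ) ≤ s by linarith)) hlog0.le]
  have m2 : volume.real (⋃ i, S2 i) ≤ ε / 4 * T := by
    refine (measureReal_iUnion_fintype_le _).trans ?_
    calc ∑ i, volume.real (S2 i) ≤ ∑ _i : Fin k, ε / (4 * (k + 1)) * T := by
          refine Finset.sum_le_sum fun i _ => ?_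
          rw [hS2]
          simp only
          rw [real_preimage_add]
          exact q2'
      _ = k * (ε / (4 * (k + 1)) * T) := by
          rw [Finset.sum_const, Finset.card_univ, Fintype.card_fin, nsmul_eq_mul]
      _ ≤ (k + 1) * (ε / (4 * (k + 1)) * T) := by
          apply mul_le_mul_of_nonneg_right (by linarith)
          have : 0 < T := by linarith
          positivity
      _ = ε / 4 * T := by field_simp
  have m3 : volume.real S3 ≤ ε / 4 * T := by
    rw [hS3, real_preimage_add]
    exact h2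
  have hsub : {t : ℝ | T ≤ t ∧ t ≤ 2 * T ∧ |∑ i, b i * (Wc T s (t + c i) - s)| ≤ Y} ⊆
      S1 ∪ ((⋃ i, S2 i) ∪ S3) := by
    rintro t ⟨t1, t2, t3⟩
    by_cases hin : ∀ i, A ≤ t + (r + c i) ∧ t + (r + c i) ≤ B
    swap
    · left
      push Not at hin
      obtain ⟨i, hi⟩ := hin
      have hc1 := abs_le.1 (hcM i)
      by_cases hi1 : A ≤ t + (r + c i)
      · right
        have hi2 := hi hi1
        rw [hB] at hi2
        exact ⟨by linarith [hc1.2], t2⟩
      · left
        rw [not_le, hA] at hi1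
        exact ⟨t1, by linarith [hc1.1]⟩
    right
    by_cases hsm : ∃ i, E ≤ err (t + (r + c i))
    · left
      obtain ⟨i, hi⟩ := hsm
      exact Set.mem_iUnion.2 ⟨i, (hin i).1, (hin i).2, hi⟩
    push Not at hsm
    right
    have hc0 := abs_le.1 (hcM i0)
    have g1 : T ≤ t + r := by linarith
    have g2 : t + r ≤ 2 * T := by
      have := (hin i0).2
      rw [hB] at this
      linarith [hc0.1]
    refine ⟨g1, g2, ?_⟩
    have hW : ∀ i, Wc T s (t + c i) = Wz r (t + (r + c i)) := by
      intro i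
      have hc1 := abs_le.1 (hcM i)
      have hti : 0 ≤ t + c i := by linarith [hc1.1, mul_nonneg hπ.le (show (0:ℝ) ≤ s by linarith)]
      rw [Wc_eq hT1 (by linarith) hti, ← hr, Wn_eq hr0 (by linarith)]
      congr 1
      ring
    have key : ∑ i, b i * Qs β N a (t + r + c i) = (∑ i, b i * (Wz r (t + (r + c i)) - s +
        Qs β N a (t + (r + c i)))) - ∑ i, b i * (Wc T s (t + c i) - s) := by
      rw [← Finset.sum_sub_distrib]
      refine Finset.sum_congr rfl fun i _ => ?_
      rw [hW i, add_assoc t r (c i)]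
      ring
    rw [key]
    refine (abs_sub _ _).trans ?_
    have e1 : |∑ i, b i * (Wz r (t + (r + c i)) - s + Qs β N a (t + (r + c i)))| ≤ B1 * E := by
      refine (Finset.abs_sum_le_sum_abs _ _).trans ?_
      rw [hB1, Finset.sum_mul]
      refine Finset.sum_le_sum fun i _ => ?_
      rw [abs_mul]
      exact mul_le_mul_of_nonneg_left (hsm i).le (abs_nonneg _)
    linarith
  have hfin : volume (S1 ∪ ((⋃ i, S2 i) ∪ S3)) ≠ ⊤ := by
    have f1 : volume S1 ≠ ⊤ := by
      refine ne_top_of_le_ne_top ?_ (measure_union_le _ _)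
      rw [Real.volume_Icc, Real.volume_Icc]
      exact ENNReal.add_ne_top.2 ⟨ENNReal.ofReal_ne_top, ENNReal.ofReal_ne_top⟩
    have f2 : volume (⋃ i, S2 i) ≠ ⊤ := by
      refine ne_top_of_le_ne_top ?_ (measure_iUnion_fintype_le _ _)
      refine ENNReal.sum_ne_top.2 fun i _ => ?_
      have : S2 i ⊆ Set.Icc (A - (r + c i)) (B - (r + c i)) := by
        rintro x ⟨hx1, hx2, _⟩
        exact ⟨by linarith, by linarith⟩
      exact ne_top_of_le_ne_top (by rw [Real.volume_Icc]; exact ENNReal.ofReal_ne_top) (measure_mono this)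
    have f3 : volume S3 ≠ ⊤ := by
      have : S3 ⊆ Set.Icc (T - r) (2 * T - r) := by
        rintro x ⟨hx1, hx2, _⟩
        exact ⟨by linarith, by linarith⟩
      exact ne_top_of_le_ne_top (by rw [Real.volume_Icc]; exact ENNReal.ofReal_ne_top) (measure_mono this)
    refine ne_top_of_le_ne_top ?_ (measure_union_le _ _)
    exact ENNReal.add_ne_top.2 ⟨f1, ne_top_of_le_ne_top (ENNReal.add_ne_top.2 ⟨f2, f3⟩)
      (measure_union_le _ _)⟩
  calc volume.real {t : ℝ | T ≤ t ∧ t ≤ 2 * T ∧ |∑ i, b i * (Wc T s (t + c i) - s)| ≤ Y} ≤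
      volume.real (S1 ∪ ((⋃ i, S2 i) ∪ S3)) := measureReal_mono hsub hfin
    _ ≤ volume.real S1 + (volume.real (⋃ i, S2 i) + volume.real S3) :=
        (measureReal_union_le _ _).trans (add_le_add le_rfl (measureReal_union_le _ _))
    _ ≤ ε / 4 * T + (ε / 4 * T + ε / 4 * T) := add_le_add m1 (add_le_add m2 m3)
    _ ≤ ε * T := by
        have : 0 < ε * T := by
          have : 0 < T := by linarith
          positivity
        linarith

end

end Pool.Agent.V8H86.OR
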